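import Mathlib

/-!
# One-variable equations in one-relator groups (MP_1ebeae_al): interface

Target: the single one-variable equation problem of the one-relator group
`G = ⟨a, b, c | (b a b⁻¹) a (b a b⁻¹)⁻¹ = a²⟩` is undecidable.

Plan. Put `q = b a b⁻¹`, so `q a q⁻¹ = a²`. If `x = a^w q^u` (`w` integer, `u` natural), then there
are words in `x` with the values `a^w`, `a^u` and, with `a^T` and `a^(T')`, also `a^(T * 2^(T'))`.
So inequalities between exponential terms in the two unknowns `u`, `w` become equations in the one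
variable `x`. These are combined to one equation by the free letter `c`.

The closed propositions `St_…` are the pieces; every piece can be proved now, independently.
-/

set_option autoImplicit false

namespace Pool.Agent.Run7.h955.OV

/-! ## piece LOG -/

/-- A literal over one set `U`: the statement `a i + b j + c k + e ∈ U` (if `pos = true`) or its
negation (if `pos = false`), in the universally quantified variables `i j k`. -/
structure Lit where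
  pos : Bool
  a : ℕ
  b : ℕ
  c : ℕ
  e : ℕ

def Lit.pt (l : Lit) (i j k : ℕ) : ℕ := l.a * i + l.b * j + l.c * k + l.e

def Lit.ok (l : Lit) (U : Finset ℕ) (i j k : ℕ) : Prop := l.pt i j k ∈ U ↔ l.pos = true

/-- The finite set `U` satisfies the universal closure of all clauses of `C`. -/
def Sat (C : List (List Lit)) (U : Finset ℕ) : Prop :=
  ∀ cl ∈ C, ∀ i j k : ℕ, ∃ l ∈ cl, l.ok U i j k

/-- piece LOG. Proof: by DPRM (`Pool.Agent.Helper844.Dio.dprm`, `finite_dummies`) it is enough to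
define the graphs of `+` and `×` by finite sets and universal clauses (adapt
`Pool/Agent/H176R3/OneRel/Dfn.lean`: `DN.and`, `DN.comp`, `DN.exF`, `DN.lin`, `DN.mul`, `DN.poly`,
`DN.dioph` with the class `UD P : ∃ κ finite, ∃ clauses over the sets indexed by `α ⊕ κ`,
∀ v, P v ↔ ∃ T : κ → Finset ℕ, ∀ clauses ∀ i j k …`, the parameter `v a` being given by the
singleton `{v a}`).
* projection `∃ m`: a set `S` and a set `G` with clauses `¬S(i) ∨ ¬S(i+j+1)`, `G(0)`,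
  `¬G(i) ∨ S(i) ∨ G(i+1)` (as `G` is finite, `S` is a singleton);
* `x + y = z`: clause `¬X(i) ∨ ¬Y(j) ∨ Z(i+j)`; `x = const`: clause `X(const)`;
* `z = (a+1)(a+2)`: sets `T`, `T'` with clauses `T(0)`, `¬T(i) ∨ ¬A(j) ∨ ¬Z(i+j+1+k) ∨ T(i+j+1)`,
  `¬T(i+j+1) ∨ ¬A(j) ∨ T(i)`, `¬T(i+1) ∨ ¬A(i+1+j)`; the same for `T'` with `a+2`: `T'(0)`,
  `¬T'(i) ∨ ¬A(j) ∨ ¬Z(i+j+2+k) ∨ T'(i+j+2)`, `¬T'(i+j+2) ∨ ¬A(j) ∨ T'(i)`,
  `¬T'(i+1) ∨ ¬A(i+j)`; and `¬Z(i) ∨ T(i)`, `¬Z(i) ∨ T'(i)`, `¬Z(0)`,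
  `¬T(i+1) ∨ ¬T'(i+1) ∨ ¬Z(i+j+2)` (least common multiple of `a+1`, `a+2`);
* `x y = z` iff with `F(a) = (a+1)(a+2)`: `F(x+y) + 2 = F(x) + F(y) + 2z`.
Finally the sets indexed by `Unit ⊕ κ` are interleaved to one set (`m ∈ S_ι` iff
`r m + number(ι) ∈ U`), the parameter set being a singleton by the clause `¬S(i) ∨ ¬S(i+j+1)` and
containing `n` by the condition `r n + s ∈ U`. -/
def St_Log : Prop := ∀ p : ℕ → Prop, REPred p →
  ∃ (C : List (List Lit)) (r s : ℕ), ∀ n, p n ↔ ∃ U : Finset ℕ, Sat C U ∧ r * n + s ∈ U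

/-! ## piece PAR -/

/-- Kummer/Lucas for the prime 2. -/
def St_Odd : Prop := ∀ V M : ℕ, Odd ((V + M).choose M) ↔ V &&& M = 0

/-- A binomial coefficient is odd iff one quotient is odd. Proof: let `θ = 2^z + 1`, then
`2^(e(A+1)) = (2^e - θ) S + θ^(A+1)`, `S = ∑_{i ≤ A} θ^i 2^(e(A-i))`; so the quotient of
`2^(e(A+1) - zB)` by `2^e - θ` is the quotient of `S` by `2^(zB)`, its parity is the bit `zB` of
`S`, hence of `θ^A = ∑ choose A i * 2^(z i)`, and `choose A i ≤ 2^A < 2^z`. -/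
def St_Quot : Prop := ∀ A B z e : ℕ, B ≤ A → A < z → (z + 1) * (A + 1) + 1 < e →
  ((∃ w : ℤ, 0 ≤ (2 : ℤ) ^ (e * (A + 1) - z * B) - (2 * w + 1) * (2 ^ e - 2 ^ z - 1) ∧
    (2 : ℤ) ^ (e * (A + 1) - z * B) - (2 * w + 1) * (2 ^ e - 2 ^ z - 1) < 2 ^ e - 2 ^ z - 1) ↔
    Odd (A.choose B))

/-! ## groups -/

section groups

variable {Γ : Type} [Group Γ]

/-- the relation of the Baumslag–Gersten group -/
def Rel (a b : Γ) : Prop := (b * a * b⁻¹) * a * (b * a * b⁻¹)⁻¹ = a ^ 2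

/-- the commutator of `y a y⁻¹` and `a` -/
def cA (a y : Γ) : Γ := (y * a * y⁻¹) * a * (y * a * y⁻¹)⁻¹ * a⁻¹

/-- the commutator of `q = b a b⁻¹` and `x`; it is `a ^ w` if `x = a ^ w * q ^ u` -/
def PP (a b x : Γ) : Γ := (b * a * b⁻¹) * x * (b * a * b⁻¹)⁻¹ * x⁻¹

/-- words in the letters `0 ↦ a`, `1 ↦ b`, `2 ↦ x` -/
abbrev Wd : Type := List (Fin 3 × Bool)

def ev3 (a b x : Γ) (t : Wd) : Γ :=
  (t.map (fun l => if l.2 = true then ![a, b, x] l.1 else (![a, b, x] l.1)⁻¹)).prod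

/-- `nest c [y₁, y₂, …] = c y₁ c y₂ … c⁻¹ c⁻¹ = y₁^(c) y₂^(c²) …` -/
def nest (c : Γ) : List Γ → Γ
  | [] => 1
  | y :: l => c * (y * nest c l) * c⁻¹

end groups

/-- piece K: a concrete quotient of the Baumslag–Gersten group. Proof: `K = HNNExtension S A B φ`,
`S` the group of the maps `x ↦ 2^k x + y` of `ℚ` (`k : ℤ`, `y : ℚ`), `a` the translation by 1,
`q` the doubling, `A = ⟨a⟩`, `B = ⟨q⟩`, stable letter `b`. By induction on reduced words with
`HNNExtension.ReducedWord.map_fst_eq_and_of_prod_eq` (applied to `x a = s x`): if `x a x⁻¹ = s ∈ S`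
then `x ∈ S`, or `x = g₀ b g₁` and `s = g₀ q^m g₀⁻¹`, `m ≠ 0`. So `cA a x = 1` implies that `x a x⁻¹`
is in `S` and commutes with `a`, so is a translation, so `x ∈ S`; and `b g b⁻¹ ∈ S`, `g ∈ S` implies
`g ∈ A`. -/
def St_K : Prop := ∃ (K : Type) (_ : Group K) (a b : K), Rel a b ∧
  (∀ x : K, cA a x = 1 → cA a (b * PP a b x * b⁻¹) = 1 → cA a (b * (x * a * x⁻¹) * b⁻¹) = 1 →
    ∃ (u : ℕ) (w : ℤ), x = a ^ w * (b * a * b⁻¹) ^ u) ∧
  (∀ R : ℤ, cA a (b * ((b * a * b⁻¹) ^ R * a * ((b * a * b⁻¹) ^ R)⁻¹) * b⁻¹) = 1 → 0 ≤ R)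

/-- the relator of `⟨a, b, c | (b a b⁻¹) a (b a b⁻¹)⁻¹ = a²⟩` -/
def rBG : FreeGroup (Fin 3) :=
  (FreeGroup.of 1 * FreeGroup.of 0 * (FreeGroup.of 1)⁻¹) * FreeGroup.of 0 *
    (FreeGroup.of 1 * FreeGroup.of 0 * (FreeGroup.of 1)⁻¹)⁻¹ * ((FreeGroup.of 0) ^ 2)⁻¹

abbrev GG : Type := PresentedGroup ({rBG} : Set (FreeGroup (Fin 3)))

/-- piece WR: separation of a system. Proof: map `GG` to the wreath product `(ℤ → K) ⋊ ℤ`
(`a`, `b` to the coordinate 0, `c` to the shift); all images `(f, n)` have finite support. The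
`ℤ`-part of the equation is `-2 n = 0`, so `n = 0`. The coordinate `j` of the equation is
`f(j)⁻¹ f(j-m-1)⁻¹ = 1` for `j` outside `0..m+1` (`m = L.length`), so `f(i) = 1` for `i ≥ 1` and
for `i < 0`; the coordinate `k+1` (`0 ≤ k < m`) is then `ev3 a b (f 0) L[k] = 1`. -/
def St_Wr : Prop := ∀ (K : Type) [Group K] (a b : K), Rel a b → ∀ (Ew : Wd) (L : List Wd),
  (∀ (Γ : Type) [Group Γ] (x : Γ), ev3 1 1 x Ew = x⁻¹) →
  (∀ t ∈ L, ∀ (Γ : Type) [Group Γ] (x : Γ), ev3 1 1 x t = 1) →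
  ∀ g : GG, ev3 (PresentedGroup.of 0) (PresentedGroup.of 1) g Ew *
    nest (PresentedGroup.of 2)
      ((L ++ [Ew]).map (ev3 (PresentedGroup.of 0) (PresentedGroup.of 1) g)) = 1 →
  ∃ x : K, ∀ t ∈ L, ev3 a b x t = 1

end Pool.Agent.Run7.h955.OV
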