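import Pool.Agent.Run7.h955.OV.Dig

/-!
# Arrays: all clauses of a list at all places at once
-/

set_option autoImplicit false

namespace Pool.Agent.Run7.h955.OV

open Finset

theorem num_add (X R : ℕ) (v w : ℕ → ℕ) : num X R v + num X R w = num X R (fun i => v i + w i) := by
  unfold num
  rw [← sum_add_distrib]
  exact sum_congr rfl fun i _ => (add_mul _ _ _).symm

theorem num_smul (X R c : ℕ) (v : ℕ → ℕ) : c * num X R v = num X R (fun i => c * v i) := by
  unfold num
  rw [mul_sum]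
  exact sum_congr rfl fun i _ => by ring

theorem num_congr (X : ℕ) {R : ℕ} {v w : ℕ → ℕ} (h : ∀ i < R, v i = w i) : num X R v = num X R w :=
  sum_congr rfl fun i hi => by rw [h i (mem_range.1 hi)]

/-- geometric sum -/
def gs (X N S : ℕ) : ℕ := ∑ i ∈ range N, X ^ (i * S)

/-- the number with the digits 1 at the places `0, …, R-1` -/
def full (X R : ℕ) : ℕ := num X R (fun _ => 1)

/-- the array of a literal -/
def arr (X N Q u : ℕ) (l : Lit) : ℕ :=
  X ^ (Q - l.e) * gs X N (Q - l.a) * gs X N (Q ^ 2 - l.b) * gs X N (Q ^ 3 - l.c) * u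

/-- the places `Q + i Q + j Q² + k Q³` -/
def comb (X N Q : ℕ) : ℕ := X ^ Q * gs X N Q * gs X N (Q ^ 2) * gs X N (Q ^ 3)

def fnum (X N Q R u : ℕ) (l : Lit) : ℕ :=
  if l.pos = true then full X R - arr X N Q u l else arr X N Q u l

def cnum (h X N Q R u : ℕ) (cl : List Lit) : ℕ :=
  (cl.map (fnum X N Q R u)).sum + (2 ^ h - cl.length) * full X R

def wins (X R : ℕ) (l : List ℕ) : ℕ := l.foldr (fun v acc => v + X ^ R * acc) 0

/-- position in the array of a literal -/
def psi (Q : ℕ) (l : Lit) (p : ℕ × ℕ × ℕ × ℕ) : ℕ :=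
  (Q - l.e) + p.1 * (Q - l.a) + p.2.1 * (Q ^ 2 - l.b) + p.2.2.1 * (Q ^ 3 - l.c) + p.2.2.2

def kpos (Q i j k : ℕ) : ℕ := Q + i * Q + j * Q ^ 2 + k * Q ^ 3

/-- `Q` is large with respect to the literal `l` -/
def Big (N Q : ℕ) (l : Lit) : Prop := 2 * ((l.a + l.b + l.c) * N + l.e + N) < Q

theorem psi_add {N Q : ℕ} {l : Lit} (hN : 0 < N) (hl : Big N Q l) (i j k m : ℕ) :
    psi Q l (i, j, k, m) + l.pt i j k = kpos Q i j k + m := by
  unfold Big at hl
  have hs : (l.a + l.b + l.c) * 1 ≤ (l.a + l.b + l.c) * N := Nat.mul_le_mul_left _ hN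
  have hQ : Q ≤ Q ^ 2 := Nat.le_self_pow (by norm_num) Q
  have hQ' : Q ≤ Q ^ 3 := Nat.le_self_pow (by norm_num) Q
  obtain ⟨x, hx⟩ := Nat.exists_eq_add_of_le (show l.e ≤ Q by omega)
  obtain ⟨y, hy⟩ := Nat.exists_eq_add_of_le (show l.a ≤ Q by omega)
  obtain ⟨z, hz⟩ := Nat.exists_eq_add_of_le (show l.b ≤ Q ^ 2 by omega)
  obtain ⟨w, hw⟩ := Nat.exists_eq_add_of_le (show l.c ≤ Q ^ 3 by omega)
  unfold psi kpos Lit.pt
  have e1 : Q - l.e = x := by omega
  have e2 : Q - l.a = y := by omega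
  have e3 : Q ^ 2 - l.b = z := by omega
  have e4 : Q ^ 3 - l.c = w := by omega
  simp only [e1, e2, e3, e4]
  rw [hz, hw]
  have h5 : i * Q = i * l.a + i * y := by rw [hy]; ring
  rw [h5]
  calc x + i * y + j * z + k * w + m + (l.a * i + l.b * j + l.c * k + l.e)
      = (l.e + x) + (i * l.a + i * y) + j * (l.b + z) + k * (l.c + w) + m := by ring
    _ = _ := by rw [← hx]

theorem base_unique {Q i j k i' j' k' x y : ℤ} (hi : 0 ≤ i) (hi2 : i < Q) (hj : 0 ≤ j) (hj2 : j < Q)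
    (hi' : 0 ≤ i') (hi2' : i' < Q) (hj' : 0 ≤ j') (hj2' : j' < Q)
    (hx : 2 * |x| < Q) (hy : 2 * |y| < Q)
    (h : Q + i * Q + j * Q ^ 2 + k * Q ^ 3 + x = Q + i' * Q + j' * Q ^ 2 + k' * Q ^ 3 + y) :
    i = i' ∧ j = j' ∧ k = k' ∧ x = y := by
  have hQ : 0 < Q := by linarith
  have key : ∀ {a b c d : ℤ}, Q * a + b = Q * c + d → |b - d| < Q → a = c ∧ b = d := by
    intro a b c d h1 h2
    have h3 : b - d = Q * (c - a) := by linarith
    rw [h3, abs_mul, abs_of_pos hQ] at h2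
    have h4 : |c - a| < 1 := by
      by_contra hc
      push Not at hc
      nlinarith
    have h5 : c - a = 0 := Int.abs_lt_one_iff.1 h4
    refine ⟨by linarith, ?_⟩
    rw [h5] at h3
    linarith
  have hxy : |x - y| < Q := by
    have := abs_sub x y
    linarith
  obtain ⟨h1, h2⟩ := key (a := 1 + i + j * Q + k * Q ^ 2) (b := x) (c := 1 + i' + j' * Q + k' * Q ^ 2)
    (d := y) (by linarith) hxy
  have hii : |i - i'| < Q := by
    rw [abs_lt]; constructor <;> linarith
  obtain ⟨h3, h4⟩ := key (a := j + k * Q) (b := i) (c := j' + k' * Q) (d := i') (by linarith) hii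
  have hjj : |j - j'| < Q := by
    rw [abs_lt]; constructor <;> linarith
  obtain ⟨h5, h6⟩ := key (a := k) (b := j) (c := k') (d := j') (by linarith) hjj
  exact ⟨h4, h6, h5, h2⟩

theorem pt_lt {N Q : ℕ} {l : Lit} (hl : Big N Q l) {i j k m : ℕ} (hi : i < N) (hj : j < N)
    (hk : k < N) (hm : m < N) : 2 * |(m : ℤ) - (l.pt i j k : ℤ)| < Q := by
  have h1 : l.pt i j k ≤ (l.a + l.b + l.c) * N + l.e := by
    unfold Lit.pt
    have := Nat.mul_le_mul_left l.a hi.le
    have := Nat.mul_le_mul_left l.b hj.le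
    have := Nat.mul_le_mul_left l.c hk.le
    nlinarith
  unfold Big at hl
  rcases abs_cases ((m : ℤ) - (l.pt i j k : ℤ)) with ⟨h, _⟩ | ⟨h, _⟩ <;> rw [h] <;> omega

theorem psi_inj {N Q : ℕ} {l : Lit} (hN : 0 < N) (hl : Big N Q l) {i j k m i' j' k' m' : ℕ}
    (hi : i < N) (hj : j < N) (hk : k < N) (hm : m < N)
    (hi' : i' < N) (hj' : j' < N) (hk' : k' < N) (hm' : m' < N)
    (h : psi Q l (i, j, k, m) = psi Q l (i', j', k', m')) :
    i = i' ∧ j = j' ∧ k = k' ∧ m = m' := by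
  have h1 := psi_add hN hl i j k m
  have h2 := psi_add hN hl i' j' k' m'
  have hNQ : N < Q := by unfold Big at hl; omega
  have h3 : (Q : ℤ) + i * Q + j * Q ^ 2 + k * Q ^ 3 + ((m : ℤ) - (l.pt i j k : ℤ)) =
      Q + i' * Q + j' * Q ^ 2 + k' * Q ^ 3 + ((m' : ℤ) - (l.pt i' j' k' : ℤ)) := by
    unfold kpos at h1 h2
    zify at h1 h2 h
    linarith
  obtain ⟨e1, e2, e3, e4⟩ := base_unique (by positivity) (by exact_mod_cast hi.trans hNQ)
    (by positivity) (by exact_mod_cast hj.trans hNQ) (by positivity)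
    (by exact_mod_cast hi'.trans hNQ) (by positivity) (by exact_mod_cast hj'.trans hNQ)
    (pt_lt hl hi hj hk hm) (pt_lt hl hi' hj' hk' hm') h3
  have e1' : i = i' := by exact_mod_cast e1
  have e2' : j = j' := by exact_mod_cast e2
  have e3' : k = k' := by exact_mod_cast e3
  subst e1' e2' e3'
  exact ⟨rfl, rfl, rfl, by omega⟩

theorem kpos_eq_psi {N Q : ℕ} {l : Lit} (hN : 0 < N) (hl : Big N Q l) {i j k i' j' k' m' : ℕ}
    (hi : i < N) (hj : j < N) (_hk : k < N)
    (hi' : i' < N) (hj' : j' < N) (hk' : k' < N) (hm' : m' < N)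
    (h : kpos Q i j k = psi Q l (i', j', k', m')) :
    i = i' ∧ j = j' ∧ k = k' ∧ m' = l.pt i j k := by
  have h2 := psi_add hN hl i' j' k' m'
  have hNQ : N < Q := by unfold Big at hl; omega
  have h3 : (Q : ℤ) + i * Q + j * Q ^ 2 + k * Q ^ 3 + 0 =
      Q + i' * Q + j' * Q ^ 2 + k' * Q ^ 3 + ((m' : ℤ) - (l.pt i' j' k' : ℤ)) := by
    unfold kpos at h2 h
    zify at h2 h
    linarith
  obtain ⟨e1, e2, e3, e4⟩ := base_unique (by positivity) (by exact_mod_cast hi.trans hNQ)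
    (by positivity) (by exact_mod_cast hj.trans hNQ) (by positivity)
    (by exact_mod_cast hi'.trans hNQ) (by positivity) (by exact_mod_cast hj'.trans hNQ)
    (by simp; omega) (pt_lt hl hi' hj' hk' hm') h3
  have e1' : i = i' := by exact_mod_cast e1
  have e2' : j = j' := by exact_mod_cast e2
  have e3' : k = k' := by exact_mod_cast e3
  subst e1' e2' e3'
  exact ⟨rfl, rfl, rfl, by omega⟩

theorem kpos_eq_psi_self {N Q : ℕ} {l : Lit} (hN : 0 < N) (hl : Big N Q l) (i j k : ℕ) :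
    kpos Q i j k = psi Q l (i, j, k, l.pt i j k) := by
  have := psi_add hN hl i j k (l.pt i j k)
  omega

/-- the places of an array -/
def aset (N Q : ℕ) (l : Lit) (U : Finset ℕ) : Finset ℕ :=
  (range N ×ˢ (range N ×ˢ (range N ×ˢ U))).image (psi Q l)

theorem arr_chi {X N Q : ℕ} {l : Lit} (hN : 0 < N) (hl : Big N Q l) {U : Finset ℕ}
    (hU : ∀ m ∈ U, m < N) : arr X N Q (chi X U) l = chi X (aset N Q l U) := by
  unfold aset
  have hinj : Set.InjOn (psi Q l) ↑(range N ×ˢ (range N ×ˢ (range N ×ˢ U))) := by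
    rintro ⟨i, j, k, m⟩ h1 ⟨i', j', k', m'⟩ h2 h
    simp only [coe_product, Set.mem_prod, mem_coe, mem_range] at h1 h2
    obtain ⟨e1, e2, e3, e4⟩ := psi_inj hN hl h1.1 h1.2.1 h1.2.2.1 (hU _ h1.2.2.2) h2.1 h2.2.1
      h2.2.2.1 (hU _ h2.2.2.2) h
    simp [e1, e2, e3, e4]
  conv_rhs => unfold chi
  rw [sum_image hinj]
  simp only [sum_product, psi, pow_add, ← mul_sum, ← sum_mul]
  unfold arr gs chi
  ring

theorem mem_aset {N Q : ℕ} {l : Lit} (hN : 0 < N) (hl : Big N Q l) {U : Finset ℕ}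
    (hU : ∀ m ∈ U, m < N) {i j k : ℕ} (hi : i < N) (hj : j < N) (hk : k < N) :
    kpos Q i j k ∈ aset N Q l U ↔ l.pt i j k ∈ U := by
  unfold aset
  rw [mem_image]
  constructor
  · rintro ⟨⟨i', j', k', m'⟩, h1, h2⟩
    simp only [mem_product, mem_range] at h1
    obtain ⟨e1, e2, e3, e4⟩ := kpos_eq_psi hN hl hi hj hk h1.1 h1.2.1 h1.2.2.1
      (hU _ h1.2.2.2) h2.symm
    rw [← e4]
    exact h1.2.2.2
  · intro h
    refine ⟨(i, j, k, l.pt i j k), ?_, (kpos_eq_psi_self hN hl i j k).symm⟩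
    simp only [mem_product, mem_range]
    exact ⟨hi, hj, hk, h⟩

/-- the set of the places of the comb -/
def kset (N Q : ℕ) : Finset ℕ :=
  (range N ×ˢ (range N ×ˢ range N)).image (fun p => kpos Q p.1 p.2.1 p.2.2)

theorem comb_chi {X N Q : ℕ} (hNQ : N < Q) : comb X N Q = chi X (kset N Q) := by
  unfold kset
  have hinj : Set.InjOn (fun p : ℕ × ℕ × ℕ => kpos Q p.1 p.2.1 p.2.2)
      ↑(range N ×ˢ (range N ×ˢ range N)) := by
    rintro ⟨i, j, k⟩ h1 ⟨i', j', k'⟩ h2 h
    simp only [coe_product, Set.mem_prod, mem_coe, mem_range] at h1 h2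
    have h3 : (Q : ℤ) + i * Q + j * Q ^ 2 + k * Q ^ 3 + 0 =
      Q + i' * Q + j' * Q ^ 2 + k' * Q ^ 3 + 0 := by
      unfold kpos at h
      zify at h
      linarith
    obtain ⟨e1, e2, e3, _⟩ := base_unique (by positivity) (by exact_mod_cast h1.1.trans hNQ)
      (by positivity) (by exact_mod_cast h1.2.1.trans hNQ) (by positivity)
      (by exact_mod_cast h2.1.trans hNQ) (by positivity) (by exact_mod_cast h2.2.1.trans hNQ)
      (by simp; omega) (by simp; omega) h3
    have e1' : i = i' := by exact_mod_cast e1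
    have e2' : j = j' := by exact_mod_cast e2
    have e3' : k = k' := by exact_mod_cast e3
    simp [e1', e2', e3']
  conv_rhs => unfold chi
  rw [sum_image hinj]
  simp only [sum_product, kpos, pow_add, ← mul_sum, ← sum_mul]
  unfold comb gs
  ring

theorem kpos_lt {N Q : ℕ} (hNQ : N < Q) (hN : 0 < N) {i j k : ℕ} (hi : i < N) (hj : j < N)
    (hk : k < N) : kpos Q i j k + N < Q ^ 5 := by
  have hQ2 : 2 ≤ Q := by omega
  have h1 : kpos Q i j k + N ≤ kpos Q (Q - 2) (Q - 2) (Q - 2) + Q := by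
    unfold kpos
    have := Nat.mul_le_mul_right Q (show i ≤ Q - 2 by omega)
    have := Nat.mul_le_mul_right (Q ^ 2) (show j ≤ Q - 2 by omega)
    have := Nat.mul_le_mul_right (Q ^ 3) (show k ≤ Q - 2 by omega)
    omega
  refine h1.trans_lt ?_
  obtain ⟨q, rfl⟩ := Nat.exists_eq_add_of_le hQ2
  unfold kpos
  have : 2 + q - 2 = q := by omega
  rw [this]
  nlinarith [Nat.zero_le q, Nat.zero_le (q ^ 2), Nat.zero_le (q ^ 3), Nat.zero_le (q ^ 4),
    Nat.zero_le (q ^ 5)]

theorem aset_lt {N Q : ℕ} {l : Lit} (hN : 0 < N) (hl : Big N Q l) {U : Finset ℕ}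
    (hU : ∀ m ∈ U, m < N) : ∀ x ∈ aset N Q l U, x < Q ^ 5 := by
  intro x hx
  unfold aset at hx
  obtain ⟨⟨i, j, k, m⟩, h1, rfl⟩ := mem_image.1 hx
  simp only [mem_product, mem_range] at h1
  have h2 := psi_add hN hl i j k m
  have hNQ : N < Q := by unfold Big at hl; omega
  have h3 := kpos_lt hNQ hN h1.1 h1.2.1 h1.2.2.1
  have h4 := hU _ h1.2.2.2
  omega

theorem kset_lt {N Q : ℕ} (hN : 0 < N) (hNQ : N < Q) : ∀ x ∈ kset N Q, x < Q ^ 5 := by
  intro x hx
  unfold kset at hx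
  obtain ⟨⟨i, j, k⟩, h1, rfl⟩ := mem_image.1 hx
  simp only [mem_product, mem_range] at h1
  have h3 := kpos_lt hNQ hN h1.1 h1.2.1 h1.2.2
  simp only
  omega

open Classical in
/-- digit of the number of a false literal -/
noncomputable def fd (N Q : ℕ) (U : Finset ℕ) (l : Lit) (x : ℕ) : ℕ :=
  if x ∈ aset N Q l U ↔ l.pos = true then 0 else 1

theorem fnum_chi {X N Q : ℕ} {l : Lit} (hN : 0 < N) (hl : Big N Q l) {U : Finset ℕ}
    (hU : ∀ m ∈ U, m < N) :
    fnum X N Q (Q ^ 5) (chi X U) l = num X (Q ^ 5) (fd N Q U l) := by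
  classical
  unfold fnum
  rw [arr_chi hN hl hU, chi_eq_num (aset_lt hN hl hU)]
  split_ifs with hp
  · unfold full
    have : num X (Q ^ 5) (fun _ => 1) = num X (Q ^ 5) (fd N Q U l) +
        num X (Q ^ 5) (fun i => if i ∈ aset N Q l U then 1 else 0) := by
      rw [num_add]
      apply num_congr
      intro i _
      unfold fd
      by_cases hi : i ∈ aset N Q l U <;> simp [hi, hp]
    rw [this]
    simp
  · apply num_congr
    intro i _
    unfold fd
    by_cases hi : i ∈ aset N Q l U <;> simp [hi, hp]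

theorem cnum_chi {h X N Q : ℕ} (hN : 0 < N) {U : Finset ℕ} (hU : ∀ m ∈ U, m < N) (cl : List Lit)
    (hl : ∀ l ∈ cl, Big N Q l) :
    cnum h X N Q (Q ^ 5) (chi X U) cl =
      num X (Q ^ 5) (fun x => (cl.map (fun l => fd N Q U l x)).sum + (2 ^ h - cl.length)) := by
  have h1 : (cl.map (fnum X N Q (Q ^ 5) (chi X U))).sum =
      num X (Q ^ 5) (fun x => (cl.map (fun l => fd N Q U l x)).sum) := by
    clear h
    induction cl with
    | nil => simp [num]
    | cons l cl ih =>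
      rw [List.map_cons, List.sum_cons, ih fun l' hl' => hl l' (List.mem_cons_of_mem _ hl'),
        fnum_chi hN (hl l List.mem_cons_self) hU, num_add]
      apply num_congr
      intro i _
      simp
  unfold cnum full
  rw [h1, num_smul, num_add]
  apply num_congr
  intro i _
  rw [mul_one]

theorem fd_le (N Q : ℕ) (U : Finset ℕ) (l : Lit) (x : ℕ) : fd N Q U l x ≤ 1 := by
  unfold fd
  split_ifs <;> omega

theorem sum_fd_le (N Q : ℕ) (U : Finset ℕ) (cl : List Lit) (x : ℕ) :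
    (cl.map (fun l => fd N Q U l x)).sum ≤ cl.length := by
  induction cl with
  | nil => simp
  | cons l cl ih =>
    have := fd_le N Q U l x
    simp only [List.map_cons, List.sum_cons, List.length_cons]
    omega

theorem sum_fd_eq (N Q : ℕ) (U : Finset ℕ) (cl : List Lit) (x : ℕ) :
    (cl.map (fun l => fd N Q U l x)).sum = cl.length ↔
      ∀ l ∈ cl, ¬ (x ∈ aset N Q l U ↔ l.pos = true) := by
  induction cl with
  | nil => simp
  | cons l cl ih =>
    have h1 := fd_le N Q U l x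
    have h2 := sum_fd_le N Q U cl x
    simp only [List.map_cons, List.sum_cons, List.length_cons, List.mem_cons, forall_eq_or_imp]
    rw [← ih]
    have h3 : fd N Q U l x = 1 ↔ ¬ (x ∈ aset N Q l U ↔ l.pos = true) := by
      unfold fd
      split_ifs with h <;> simp [h]
    rw [← h3]
    omega

/-- one clause -/
theorem clause_iff {h N Q : ℕ} (hN : 0 < N) (hNQ : N < Q) {U : Finset ℕ} (hU : ∀ m ∈ U, m < N)
    (cl : List Lit) (hl : ∀ l ∈ cl, Big N Q l) (hlen : cl.length ≤ 2 ^ h) :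
    cnum h (2 ^ (h + 1)) N Q (Q ^ 5) (chi (2 ^ (h + 1)) U) cl &&&
      2 ^ h * comb (2 ^ (h + 1)) N Q = 0 ↔
    ∀ i < N, ∀ j < N, ∀ k < N, ∃ l ∈ cl, l.ok U i j k := by
  classical
  have hp : 2 ^ (h + 1) = 2 * 2 ^ h := by ring
  have hp0 : 0 < 2 ^ h := by positivity
  rw [cnum_chi hN hU cl hl, comb_chi hNQ, chi_eq_num (kset_lt hN hNQ), num_smul, num_land]
  rotate_left
  · intro x
    have := sum_fd_le N Q U cl x
    omega
  · intro x
    split_ifs <;> omega
  have key : ∀ x, ((cl.map (fun l => fd N Q U l x)).sum + (2 ^ h - cl.length)) &&& 2 ^ h = 0 ↔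
      ∃ l ∈ cl, (x ∈ aset N Q l U ↔ l.pos = true) := by
    intro x
    have h2 := sum_fd_le N Q U cl x
    have h3 : (∃ l ∈ cl, (x ∈ aset N Q l U ↔ l.pos = true)) ↔
        (cl.map (fun l => fd N Q U l x)).sum ≠ cl.length := by
      rw [ne_eq, sum_fd_eq]
      push Not
      rfl
    rw [h3]
    by_cases h4 : (cl.map (fun l => fd N Q U l x)).sum = cl.length
    · have : cl.length + (2 ^ h - cl.length) = 2 ^ h := by omega
      rw [h4, this]
      simp
    · have h5 : (cl.map (fun l => fd N Q U l x)).sum + (2 ^ h - cl.length) < 2 ^ h := by omega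
      rw [Nat.and_two_pow, Nat.testBit_lt_two_pow h5]
      simp [h4]
  constructor
  · intro H i hi j hj k hk
    have hmem : kpos Q i j k ∈ kset N Q := by
      unfold kset
      rw [mem_image]
      exact ⟨(i, j, k), by simp [hi, hj, hk], rfl⟩
    have h1 := H (kpos Q i j k) (kset_lt hN hNQ _ hmem)
    rw [if_pos hmem, mul_one, key] at h1
    obtain ⟨l, hlc, h2⟩ := h1
    refine ⟨l, hlc, ?_⟩
    rw [mem_aset hN (hl l hlc) hU hi hj hk] at h2
    exact h2
  · intro H x _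
    split_ifs with hx
    · rw [mul_one, key]
      unfold kset at hx
      obtain ⟨⟨i, j, k⟩, h1, rfl⟩ := mem_image.1 hx
      simp only [mem_product, mem_range] at h1
      obtain ⟨l, hlc, h2⟩ := H i h1.1 j h1.2.1 k h1.2.2
      refine ⟨l, hlc, ?_⟩
      simp only
      rw [mem_aset hN (hl l hlc) hU h1.1 h1.2.1 h1.2.2]
      exact h2
    · simp

end Pool.Agent.Run7.h955.OV
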