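import Pool.Agent.Run7.h955.OV.Iface

/-!
# Digits: numbers with given digits to a base `2^s`, bitwise conjunction
-/

set_option autoImplicit false

namespace Pool.Agent.Run7.h955.OV

theorem land_zero_iff (a b : ℕ) : a &&& b = 0 ↔ ∀ i, a.testBit i = true → b.testBit i = false := by
  constructor
  · intro h i hi
    have h1 := congrArg (fun x => x.testBit i) h
    simp only [Nat.testBit_and, Nat.zero_testBit, hi, Bool.true_and] at h1
    exact h1
  · intro h
    apply Nat.eq_of_testBit_eq
    intro i
    rw [Nat.testBit_and, Nat.zero_testBit]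
    cases ha : a.testBit i with
    | false => simp
    | true => simp [h i ha]

/-- conjunction of numbers cut in two windows -/
theorem win {t v m a b : ℕ} (hv : v < 2 ^ t) (hm : m < 2 ^ t) :
    (v + 2 ^ t * a) &&& (m + 2 ^ t * b) = 0 ↔ (v &&& m = 0 ∧ a &&& b = 0) := by
  rw [land_zero_iff, land_zero_iff, land_zero_iff]
  have e1 : ∀ j, (v + 2 ^ t * a).testBit j = if j < t then v.testBit j else a.testBit (j - t) := by
    intro j
    rw [add_comm, Nat.testBit_two_pow_mul_add a hv]
  have e2 : ∀ j, (m + 2 ^ t * b).testBit j = if j < t then m.testBit j else b.testBit (j - t) := by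
    intro j
    rw [add_comm, Nat.testBit_two_pow_mul_add b hm]
  constructor
  · intro h
    refine ⟨fun i hi => ?_, fun i hi => ?_⟩
    · by_cases hit : i < t
      · have := h i
        rw [e1, e2, if_pos hit, if_pos hit] at this
        exact this hi
      · have : v < 2 ^ i := hv.trans_le (Nat.pow_le_pow_right (by norm_num) (by omega))
        rw [Nat.testBit_lt_two_pow this] at hi
        exact absurd hi (by simp)
    · have := h (i + t)
      rw [e1, e2, if_neg (by omega), if_neg (by omega), Nat.add_sub_cancel] at this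
      exact this hi
  · rintro ⟨h1, h2⟩ j hj
    rw [e1] at hj
    rw [e2]
    split_ifs with hjt
    · rw [if_pos hjt] at hj
      exact h1 j hj
    · rw [if_neg hjt] at hj
      exact h2 _ hj

/-- the number with the digits `v 0, …, v (R-1)` to the base `X` -/
def num (X R : ℕ) (v : ℕ → ℕ) : ℕ := ∑ i ∈ Finset.range R, v i * X ^ i

theorem num_succ (X R : ℕ) (v : ℕ → ℕ) :
    num X (R + 1) v = v 0 + X * num X R (fun i => v (i + 1)) := by
  unfold num
  rw [Finset.sum_range_succ', Finset.mul_sum, pow_zero, mul_one, add_comm]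
  congr 1
  apply Finset.sum_congr rfl
  intro i _
  rw [pow_succ]
  ring

theorem num_lt {X : ℕ} (R : ℕ) {v : ℕ → ℕ} (hv : ∀ i, v i < X) : num X R v < X ^ R := by
  induction R generalizing v with
  | zero => simp [num]
  | succ R ih =>
    rw [num_succ, pow_succ]
    have h1 := ih (v := fun i => v (i + 1)) (fun i => hv _)
    have h2 := hv 0
    nlinarith

theorem num_land {s : ℕ} (R : ℕ) {v m : ℕ → ℕ} (hv : ∀ i, v i < 2 ^ s) (hm : ∀ i, m i < 2 ^ s) :
    num (2 ^ s) R v &&& num (2 ^ s) R m = 0 ↔ ∀ i < R, v i &&& m i = 0 := by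
  induction R generalizing v m with
  | zero => simp [num]
  | succ R ih =>
    rw [num_succ, num_succ, win (hv 0) (hm 0), ih (fun i => hv _) (fun i => hm _)]
    constructor
    · rintro ⟨h0, h1⟩ i hi
      rcases i with _ | i
      · exact h0
      · exact h1 i (by omega)
    · intro h
      exact ⟨h 0 (by omega), fun i hi => h (i + 1) (by omega)⟩

/-- the number with the digits 1 at the positions of `S` -/
def chi (X : ℕ) (S : Finset ℕ) : ℕ := ∑ i ∈ S, X ^ i

open Classical in
theorem chi_eq_num {X R : ℕ} {S : Finset ℕ} (hS : ∀ i ∈ S, i < R) :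
    chi X S = num X R (fun i => if i ∈ S then 1 else 0) := by
  unfold chi num
  have h1 : S = (Finset.range R).filter (fun i => i ∈ S) := by
    ext i
    simp only [Finset.mem_filter, Finset.mem_range]
    exact ⟨fun h => ⟨hS i h, h⟩, fun h => h.2⟩
  conv_lhs => rw [h1]
  rw [Finset.sum_filter]
  apply Finset.sum_congr rfl
  intro i _
  by_cases hi : i ∈ S <;> simp [hi]

theorem lt_of_mem_chi {X : ℕ} (hX : 2 ≤ X) {S : Finset ℕ} {i : ℕ} (hi : i ∈ S) : i < chi X S := by
  have h1 : X ^ i ≤ chi X S := Finset.single_le_sum (f := fun i => X ^ i) (fun _ _ => Nat.zero_le _) hi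
  exact (Nat.lt_pow_self (by omega)).trans_le h1

/-- a number all of whose digits are 0 or 1 -/
theorem exists_chi {h : ℕ} (R : ℕ) {u : ℕ} (hu : u < (2 ^ (h + 1)) ^ R)
    (hc : u &&& num (2 ^ (h + 1)) R (fun _ => 2 ^ (h + 1) - 2) = 0) :
    ∃ S : Finset ℕ, u = chi (2 ^ (h + 1)) S := by
  induction R generalizing u with
  | zero => exact ⟨∅, by simpa [chi] using hu⟩
  | succ R ih =>
    have hX : 0 < 2 ^ (h + 1) := by positivity
    have e : u = u % 2 ^ (h + 1) + 2 ^ (h + 1) * (u / 2 ^ (h + 1)) := (Nat.mod_add_div _ _).symm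
    have h1 : u % 2 ^ (h + 1) < 2 ^ (h + 1) := Nat.mod_lt _ hX
    have h2 : 2 ^ (h + 1) - 2 < 2 ^ (h + 1) := by omega
    rw [num_succ] at hc
    rw [e, win h1 h2] at hc
    obtain ⟨hc0, hc1⟩ := hc
    have h3 : u / 2 ^ (h + 1) < (2 ^ (h + 1)) ^ R := by
      apply Nat.div_lt_of_lt_mul
      rw [← pow_succ']
      exact hu
    obtain ⟨S, hS⟩ := ih h3 hc1
    -- the lowest digit
    have h4 : u % 2 ^ (h + 1) = 0 ∨ u % 2 ^ (h + 1) = 1 := by
      have h5 : ∀ i, 1 ≤ i → (u % 2 ^ (h + 1)).testBit i = false := by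
        intro i hi
        by_cases hih : i < h + 1
        · rw [land_zero_iff] at hc0
          by_contra hcon
          have hcon' : (u % 2 ^ (h + 1)).testBit i = true := by simpa using hcon
          have h6 := hc0 i hcon'
          have h7 : 2 ^ (h + 1) - 2 = 2 ^ 1 * (2 ^ h - 1) + 0 := by
            have : 2 ^ (h + 1) = 2 * 2 ^ h := by ring
            omega
          rw [h7, Nat.testBit_two_pow_mul_add _ (by norm_num : 0 < 2 ^ 1), if_neg (by omega),
            Nat.testBit_two_pow_sub_one] at h6
          have h8 : i - 1 < h := by omega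
          simp [h8] at h6
        · apply Nat.testBit_lt_two_pow
          exact h1.trans_le (Nat.pow_le_pow_right (by norm_num) (by omega))
      by_contra hcon
      push Not at hcon
      obtain ⟨hn0, hn1⟩ := hcon
      have h9 : u % 2 ^ (h + 1) / 2 ≠ 0 := by omega
      obtain ⟨i, hi⟩ := Nat.exists_testBit_of_ne_zero h9
      rw [Nat.testBit_div_two] at hi
      rw [h5 (i + 1) (by omega)] at hi
      exact absurd hi (by simp)
    classical
    let S' : Finset ℕ := S.map ⟨fun i => i + 1, fun a b hab => by simpa using hab⟩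
    have h10 : chi (2 ^ (h + 1)) S' = 2 ^ (h + 1) * (u / 2 ^ (h + 1)) := by
      rw [hS]
      unfold chi
      rw [Finset.sum_map, Finset.mul_sum]
      apply Finset.sum_congr rfl
      intro i _
      simp only [Function.Embedding.coeFn_mk]
      rw [pow_succ']
    have h11 : (0 : ℕ) ∉ S' := by
      simp [S']
    rcases h4 with h4 | h4
    · exact ⟨S', by rw [h10]; omega⟩
    · refine ⟨insert 0 S', ?_⟩
      unfold chi at h10 ⊢
      rw [Finset.sum_insert h11, h10, pow_zero]
      omega

/-- conversely -/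
theorem chi_land {h : ℕ} (R : ℕ) {S : Finset ℕ} (hS : ∀ i ∈ S, i < R) :
    chi (2 ^ (h + 1)) S &&& num (2 ^ (h + 1)) R (fun _ => 2 ^ (h + 1) - 2) = 0 := by
  classical
  have hp : 2 ^ (h + 1) = 2 * 2 ^ h := by ring
  have hp0 : 0 < 2 ^ h := by positivity
  rw [chi_eq_num hS, num_land (s := h + 1) R (fun i => by split_ifs <;> omega) (fun i => by omega)]
  intro i _
  split_ifs with hi
  · rw [land_zero_iff]
    intro j hj
    have hj0 : j = 0 := by
      by_contra hne
      have : (1 : ℕ).testBit j = false := Nat.testBit_lt_two_pow (Nat.one_lt_two_pow hne)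
      rw [this] at hj
      exact absurd hj (by simp)
    subst hj0
    rw [Nat.testBit_zero]
    have : (2 ^ (h + 1) - 2) % 2 = 0 := by omega
    simp [this]
  · simp

end Pool.Agent.Run7.h955.OV
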