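import Pool.Agent.Run7.h955.OV.Iface

/-!
# Piece WR (helper85)
-/

set_option autoImplicit false

namespace Pool.Agent.Run7.h955.OV

section hom

variable {Γ Δ : Type} [Group Γ] [Group Δ]

lemma map_ev3 (φ : Γ →* Δ) (a b x : Γ) (t : Wd) :
    φ (ev3 a b x t) = ev3 (φ a) (φ b) (φ x) t := by
  have h : ∀ i : Fin 3, φ (![a, b, x] i) = ![φ a, φ b, φ x] i := by
    intro i
    fin_cases i <;> rfl
  unfold ev3
  rw [map_list_prod, List.map_map]
  congr 1
  apply List.map_congr_left
  intro l _
  show φ (if l.2 = true then ![a, b, x] l.1 else (![a, b, x] l.1)⁻¹) = _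
  split_ifs
  · exact h _
  · rw [map_inv, h]

lemma map_nest (φ : Γ →* Δ) (c : Γ) (l : List Γ) : φ (nest c l) = nest (φ c) (l.map φ) := by
  induction l with
  | nil => exact map_one φ
  | cons y l ih =>
    show φ (c * (y * nest c l) * c⁻¹) = φ c * (φ y * nest (φ c) (l.map φ)) * (φ c)⁻¹
    rw [map_mul, map_mul, map_mul, map_inv, ih]

end hom

lemma nest_comm {Γ : Type} [CommGroup Γ] (c : Γ) (l : List Γ) : nest c l = l.prod := by
  induction l with
  | nil => rfl
  | cons y l ih =>
    show c * (y * nest c l) * c⁻¹ = _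
    rw [ih, List.prod_cons, mul_comm c, mul_inv_cancel_right]

section wreath

variable (K : Type) [Group K]

/-- the shift -/
def sh : Multiplicative ℤ →* MulAut (ℤ → K) where
  toFun n :=
    { toFun := fun f j => f (j - n.toAdd)
      invFun := fun f j => f (j + n.toAdd)
      left_inv := fun f => by funext j; simp
      right_inv := fun f => by funext j; simp
      map_mul' := fun f g => rfl }
  map_one' := by
    ext f j
    simp
  map_mul' m n := by
    ext f j
    show f (j - (m * n).toAdd) = f (j - m.toAdd - n.toAdd)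
    rw [toAdd_mul, sub_sub]

/-- the wreath product -/
abbrev Wr : Type := (ℤ → K) ⋊[sh K] (Multiplicative ℤ)

variable {K}

/-- `nest` in the base group -/
def Nf : List (ℤ → K) → (ℤ → K)
  | [] => 1
  | y :: l => fun j => y (j - 1) * Nf l (j - 1)

lemma nest_inl (l : List (ℤ → K)) :
    nest (SemidirectProduct.inr (Multiplicative.ofAdd (1 : ℤ)) : Wr K)
      (l.map SemidirectProduct.inl) = SemidirectProduct.inl (Nf l) := by
  induction l with
  | nil => exact (map_one _).symm
  | cons y l ih =>
    show SemidirectProduct.inr (Multiplicative.ofAdd (1 : ℤ)) * (SemidirectProduct.inl y *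
      nest (SemidirectProduct.inr (Multiplicative.ofAdd (1 : ℤ)) : Wr K)
        (l.map SemidirectProduct.inl)) * (SemidirectProduct.inr (Multiplicative.ofAdd (1 : ℤ)))⁻¹ = _
    rw [ih, ← map_mul, ← map_inv, ← SemidirectProduct.inl_aut]
    rfl

lemma Nf_far (z : ℤ → K) : ∀ (l : List (ℤ → K)) (j : ℤ), (∀ y ∈ l, ∀ i, i ≠ 0 → y i = 1) →
    (j ≤ 0 ∨ (l.length : ℤ) + 1 ≤ j) → Nf (l ++ [z]) j = z (j - (l.length + 1)) := by
  intro l
  induction l with
  | nil =>
    intro j _ _
    show z (j - 1) * 1 = _
    simp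
  | cons y l ih =>
    intro j hl hj
    show y (j - 1) * Nf (l ++ [z]) (j - 1) = _
    simp only [List.length_cons, Nat.cast_add, Nat.cast_one] at hj ⊢
    rw [hl y (List.mem_cons_self ..) (j - 1) (by have := Int.natCast_nonneg l.length; omega),
      one_mul, ih (j - 1) (fun y' hy' => hl y' (List.mem_cons_of_mem _ hy')) (by omega)]
    congr 1
    ring

lemma Nf_near (z : ℤ → K) : ∀ (l : List (ℤ → K)) (k : ℕ) (hk : k < l.length),
    (∀ y ∈ l, ∀ i, i ≠ 0 → y i = 1) →
    Nf (l ++ [z]) (k + 1) = l[k] 0 * z (k - l.length) := by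
  intro l
  induction l with
  | nil => intro k hk; simp at hk
  | cons y l ih =>
    intro k hk hl
    show y ((k : ℤ) + 1 - 1) * Nf (l ++ [z]) ((k : ℤ) + 1 - 1) = _
    rw [add_sub_cancel_right]
    cases k with
    | zero =>
      rw [Nf_far z l _ (fun y' hy' => hl y' (List.mem_cons_of_mem _ hy')) (Or.inl (by simp))]
      simp
    | succ s =>
      have h1 := ih s (by simpa using hk) (fun y' hy' => hl y' (List.mem_cons_of_mem _ hy'))
      rw [hl y (List.mem_cons_self ..) _ (by push_cast; omega), one_mul]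
      push_cast
      rw [h1]
      simp only [List.getElem_cons_succ, List.length_cons, Nat.cast_add, Nat.cast_one]
      congr 2
      ring

/-- finite supports -/
def fin (K : Type) [Group K] : Subgroup (Wr K) where
  carrier := {w | (Function.mulSupport w.left).Finite}
  mul_mem' := by
    intro v w hv hw
    have h1 : (Function.mulSupport (fun j => w.left (j - v.right.toAdd))).Finite :=
      Set.Finite.preimage (fun i _ j _ h => by simpa using h) hw
    refine Set.Finite.subset (Set.Finite.union hv h1) ?_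
    intro j hj
    by_contra hcon
    apply hj
    simp only [Set.mem_union, Function.mem_mulSupport, not_or, not_not] at hcon
    show v.left j * w.left (j - v.right.toAdd) = 1
    rw [hcon.1, hcon.2, one_mul]
  one_mem' := by
    show (Function.mulSupport (1 : ℤ → K)).Finite
    rw [Function.mulSupport_one]
    exact Set.finite_empty
  inv_mem' := by
    intro w hw
    have h1 : (Function.mulSupport (fun j => w.left (j - (w.right⁻¹).toAdd))).Finite :=
      Set.Finite.preimage (fun i _ j _ h => by simpa using h) hw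
    refine Set.Finite.subset h1 ?_
    intro j hj
    by_contra hcon
    apply hj
    simp only [Function.mem_mulSupport, not_not] at hcon
    show (w.left (j - (w.right⁻¹).toAdd))⁻¹ = 1
    rw [hcon, inv_one]

lemma chain_up {f : ℤ → K} {B : ℤ} (hB : ∀ i, B < |i| → f i = 1) {m : ℤ} (hm : 0 < m) {i : ℤ}
    (h : ∀ s : ℕ, f (i + s * m) * f (i + (s + 1) * m) = 1) : f i = 1 := by
  have key : ∀ s : ℕ, f (i + s * m) = 1 → f i = 1 := by
    intro s
    induction s with
    | zero => intro h; simpa using h
    | succ s ih =>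
      intro h1
      apply ih
      have h2 := h s
      push_cast at h1
      rw [h1, mul_one] at h2
      exact h2
  have hs : 0 ≤ |B| + |i| := by positivity
  apply key (|B| + |i| + 1).toNat
  apply hB
  rw [Int.toNat_of_nonneg (by omega)]
  have h1 : |B| + |i| + 1 ≤ (|B| + |i| + 1) * m := by nlinarith
  have h2 := le_abs_self B
  have h3 := neg_abs_le i
  have h4 := le_abs_self (i + (|B| + |i| + 1) * m)
  omega

lemma chain_down {f : ℤ → K} {B : ℤ} (hB : ∀ i, B < |i| → f i = 1) {m : ℤ} (hm : 0 < m) {i : ℤ}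
    (h : ∀ s : ℕ, f (i - s * m) * f (i - (s + 1) * m) = 1) : f i = 1 := by
  have key : ∀ s : ℕ, f (i - s * m) = 1 → f i = 1 := by
    intro s
    induction s with
    | zero => intro h; simpa using h
    | succ s ih =>
      intro h1
      apply ih
      have h2 := h s
      push_cast at h1
      rw [h1, mul_one] at h2
      exact h2
  have hs : 0 ≤ |B| + |i| := by positivity
  apply key (|B| + |i| + 1).toNat
  apply hB
  rw [Int.toNat_of_nonneg (by omega)]
  have h1 : |B| + |i| + 1 ≤ (|B| + |i| + 1) * m := by nlinarith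
  have h2 := le_abs_self B
  have h3 := le_abs_self i
  have h4 := neg_abs_le (i - (|B| + |i| + 1) * m)
  omega

end wreath

theorem t_Wr : St_Wr := by
  intro K _ a b hab Ew L hE hL g hg
  classical
  set a0 : ℤ → K := Pi.mulSingle 0 a with ha0
  set b0 : ℤ → K := Pi.mulSingle 0 b with hb0
  -- the homomorphism to the wreath product
  let gen : Fin 3 → Wr K := ![SemidirectProduct.inl a0, SemidirectProduct.inl b0,
    SemidirectProduct.inr (Multiplicative.ofAdd (1 : ℤ))]
  have hrel : ∀ r ∈ ({rBG} : Set (FreeGroup (Fin 3))), FreeGroup.lift gen r = 1 := by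
    intro r hr
    rw [Set.mem_singleton_iff.1 hr]
    have h1 : Rel a0 b0 := by
      show (b0 * a0 * b0⁻¹) * a0 * (b0 * a0 * b0⁻¹)⁻¹ = a0 ^ 2
      funext j
      simp only [Pi.mul_apply, Pi.inv_apply, Pi.pow_apply]
      by_cases hj : j = 0
      · subst hj
        rw [ha0, hb0, Pi.mulSingle_eq_same, Pi.mulSingle_eq_same]
        exact hab
      · rw [ha0, hb0, Pi.mulSingle_eq_of_ne hj, Pi.mulSingle_eq_of_ne hj]
        simp
    have h2 : (b0 * a0 * b0⁻¹) * a0 * (b0 * a0 * b0⁻¹)⁻¹ = a0 ^ 2 := h1
    have h3 : FreeGroup.lift gen rBG = SemidirectProduct.inl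
        ((b0 * a0 * b0⁻¹) * a0 * (b0 * a0 * b0⁻¹)⁻¹ * (a0 ^ 2)⁻¹) := by
      simp only [rBG, map_mul, map_inv, map_pow, FreeGroup.lift_apply_of]
      rfl
    rw [h3, h2, mul_inv_cancel, map_one]
  let Φ : GG →* Wr K := PresentedGroup.toGroup hrel
  have Φ0 : Φ (PresentedGroup.of 0) = SemidirectProduct.inl a0 := PresentedGroup.toGroup.of hrel
  have Φ1 : Φ (PresentedGroup.of 1) = SemidirectProduct.inl b0 := PresentedGroup.toGroup.of hrel
  have Φ2 : Φ (PresentedGroup.of 2) = SemidirectProduct.inr (Multiplicative.ofAdd (1 : ℤ)) :=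
    PresentedGroup.toGroup.of hrel
  -- finite support
  have hfin : (Function.mulSupport (Φ g).left).Finite := by
    have h1 : (⊤ : Subgroup GG) ≤ (fin K).comap Φ := by
      rw [← PresentedGroup.closure_range_of, Subgroup.closure_le]
      rintro _ ⟨i, rfl⟩
      show (Function.mulSupport (Φ (PresentedGroup.of i)).left).Finite
      fin_cases i
      · show (Function.mulSupport (Φ (PresentedGroup.of 0)).left).Finite
        rw [Φ0, SemidirectProduct.left_inl, ha0]
        exact (Set.finite_singleton (0 : ℤ)).subset Pi.mulSupport_mulSingle_subset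
      · show (Function.mulSupport (Φ (PresentedGroup.of 1)).left).Finite
        rw [Φ1, SemidirectProduct.left_inl, hb0]
        exact (Set.finite_singleton (0 : ℤ)).subset Pi.mulSupport_mulSingle_subset
      · show (Function.mulSupport (Φ (PresentedGroup.of 2)).left).Finite
        rw [Φ2, SemidirectProduct.left_inr, Function.mulSupport_one]
        exact Set.finite_empty
    exact h1 (Subgroup.mem_top g)
  -- the integer part
  have hn : (Φ g).right = 1 := by
    have h1 := congrArg (SemidirectProduct.rightHom.comp Φ) hg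
    rw [map_mul, map_nest, map_ev3, map_one, nest_comm, List.map_map] at h1
    have r0 : (SemidirectProduct.rightHom.comp Φ) (PresentedGroup.of 0) = 1 := by
      rw [MonoidHom.comp_apply, Φ0, SemidirectProduct.rightHom_inl]
    have r1 : (SemidirectProduct.rightHom.comp Φ) (PresentedGroup.of 1) = 1 := by
      rw [MonoidHom.comp_apply, Φ1, SemidirectProduct.rightHom_inl]
    rw [r0, r1, hE] at h1
    have h2 : (L ++ [Ew]).map ((SemidirectProduct.rightHom.comp Φ) ∘
        ev3 (PresentedGroup.of 0) (PresentedGroup.of 1) g)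
        = (L ++ [Ew]).map (fun t => ev3 1 1 ((SemidirectProduct.rightHom.comp Φ) g) t) := by
      apply List.map_congr_left
      intro t _
      rw [Function.comp_apply, map_ev3, r0, r1]
    rw [h2, List.map_append, List.prod_append, List.map_singleton, List.prod_singleton, hE] at h1
    have h3 : (L.map (fun t => ev3 1 1 ((SemidirectProduct.rightHom.comp Φ) g) t)).prod = 1 := by
      apply List.prod_eq_one
      intro y hy
      obtain ⟨t, ht, rfl⟩ := List.mem_map.1 hy
      exact hL t ht _ _
    rw [h3, one_mul] at h1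
    have h4 : (SemidirectProduct.rightHom.comp Φ) g = (Φ g).right := rfl
    rw [h4] at h1
    have h5 := congrArg Multiplicative.toAdd h1
    rw [toAdd_mul, toAdd_inv, toAdd_one] at h5
    apply Multiplicative.toAdd.injective
    rw [toAdd_one]
    omega
  set f : ℤ → K := (Φ g).left with hf
  have hΦg : Φ g = SemidirectProduct.inl f := by
    apply SemidirectProduct.ext
    · rw [SemidirectProduct.left_inl]
    · rw [SemidirectProduct.right_inl]; exact hn
  let F : Wd → (ℤ → K) := fun t => ev3 a0 b0 f t
  have hF : ∀ t j, F t j = ev3 (a0 j) (b0 j) (f j) t := by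
    intro t j
    exact map_ev3 (Pi.evalMonoidHom (fun _ : ℤ => K) j) a0 b0 f t
  have hcoord : F Ew * Nf (L.map F ++ [F Ew]) = 1 := by
    have h1 := congrArg Φ hg
    rw [map_mul, map_nest, map_ev3, map_one, Φ0, Φ1, Φ2, hΦg, List.map_map] at h1
    have h2 : (L ++ [Ew]).map (Φ ∘ ev3 (PresentedGroup.of 0) (PresentedGroup.of 1) g)
        = (L.map F ++ [F Ew]).map SemidirectProduct.inl := by
      have h3 : (L.map F ++ [F Ew]) = (L ++ [Ew]).map F := by
        rw [List.map_append, List.map_singleton]
      rw [h3, List.map_map]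
      apply List.map_congr_left
      intro t _
      rw [Function.comp_apply, Function.comp_apply, map_ev3, Φ0, Φ1, hΦg]
      exact (map_ev3 (SemidirectProduct.inl : (ℤ → K) →* Wr K) a0 b0 f t).symm
    rw [h2, nest_inl, ← map_ev3 (SemidirectProduct.inl : (ℤ → K) →* Wr K), ← map_mul] at h1
    exact SemidirectProduct.inl_injective (h1.trans (map_one _).symm)
  have a1 : ∀ j, j ≠ 0 → a0 j = 1 := fun j hj => by rw [ha0, Pi.mulSingle_eq_of_ne hj]
  have b1 : ∀ j, j ≠ 0 → b0 j = 1 := fun j hj => by rw [hb0, Pi.mulSingle_eq_of_ne hj]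
  have hFE : ∀ j, j ≠ 0 → F Ew j = (f j)⁻¹ := by
    intro j hj
    rw [hF, a1 j hj, b1 j hj]
    exact hE K (f j)
  have hFL : ∀ y ∈ L.map F, ∀ j, j ≠ 0 → y j = 1 := by
    intro y hy j hj
    obtain ⟨t, ht, rfl⟩ := List.mem_map.1 hy
    rw [hF, a1 j hj, b1 j hj]
    exact hL t ht K (f j)
  obtain ⟨B, hB⟩ : ∃ B : ℤ, ∀ i, B < |i| → f i = 1 := by
    obtain ⟨B, hB⟩ := (hfin.image (fun i : ℤ => |i|)).bddAbove
    refine ⟨B, fun i hi => ?_⟩
    by_contra hcon
    have := hB ⟨i, hcon, rfl⟩
    simp only at this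
    omega
  set m : ℤ := (L.length : ℤ) + 1 with hm
  have hm0 : 0 < m := by have := Int.natCast_nonneg L.length; omega
  -- the recursion
  have hrec : ∀ j : ℤ, (j < 0 ∨ m < j) → f (j - m) * f j = 1 := by
    intro j hj
    have h1 := congrFun hcoord j
    rw [Pi.mul_apply, Pi.one_apply, Nf_far (F Ew) (L.map F) j hFL
      (by rw [List.length_map]; omega), List.length_map, hFE j (by omega)] at h1
    have h2 : j - ((L.length : ℤ) + 1) = j - m := rfl
    rw [h2, hFE (j - m) (by omega), ← mul_inv_rev] at h1
    exact inv_eq_one.1 h1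
  have hup : ∀ i : ℤ, 1 ≤ i → f i = 1 := by
    intro i hi
    apply chain_up hB hm0
    intro s
    have hs := mul_nonneg (Int.natCast_nonneg s) hm0.le
    have h1 := hrec (i + (s + 1) * m) (Or.inr (by nlinarith))
    have h2 : i + ((s : ℤ) + 1) * m - m = i + s * m := by ring
    rw [h2] at h1
    exact h1
  have hdown : ∀ i : ℤ, i < 0 → f i = 1 := by
    intro i hi
    apply chain_down hB hm0
    intro s
    have hs := mul_nonneg (Int.natCast_nonneg s) hm0.le
    have h1 := hrec (i - s * m) (Or.inl (by nlinarith))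
    have h2 : i - (s : ℤ) * m - m = i - (s + 1) * m := by ring
    rw [h2] at h1
    have h3 : f (i - s * m) = (f (i - (s + 1) * m))⁻¹ := by
      rw [eq_inv_iff_mul_eq_one, ← inv_inj, mul_inv_rev, inv_one]
      have h4 := congrArg (·⁻¹) h1
      simp only [mul_inv_rev, inv_one] at h4
      have h5 := mul_eq_one_iff_eq_inv.1 h4
      rw [h5]
      simp
    rw [h3, inv_mul_cancel]
  refine ⟨f 0, ?_⟩
  intro t ht
  obtain ⟨k, hk, rfl⟩ := List.mem_iff_getElem.1 ht
  have h1 := congrFun hcoord ((k : ℤ) + 1)
  have hk' : k < (L.map F).length := by rw [List.length_map]; exact hk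
  rw [Pi.mul_apply, Pi.one_apply, Nf_near (F Ew) (L.map F) k hk' hFL,
    hFE ((k : ℤ) + 1) (by omega), hup _ (by omega), inv_one, one_mul, List.length_map,
    hFE ((k : ℤ) - L.length) (by omega), hdown _ (by omega), inv_one, mul_one,
    List.getElem_map, hF] at h1
  rw [ha0, hb0, Pi.mulSingle_eq_same, Pi.mulSingle_eq_same] at h1
  exact h1

end Pool.Agent.Run7.h955.OV
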