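import Pool.Agent.Run7.h955.OV.Num2
import Pool.Agent.Run7.h955.OV.P_WR
import Pool.Agent.Run7.h617.OV.K

/-!
# Undecidability of one-variable equations: assembly
-/

set_option autoImplicit false

namespace Pool.Agent.Run7.h955.OV

section

variable {Γ : Type} [Group Γ]

theorem cA_one_iff (a y : Γ) : cA a y = 1 ↔ Commute (y * a * y⁻¹) a := by
  unfold cA
  generalize y * a * y⁻¹ = z
  constructor
  · intro h
    have h1 : z * a * z⁻¹ = a := by
      have := mul_inv_eq_one.1 h
      exact this
    exact mul_inv_eq_iff_eq_mul.1 h1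
  · intro h
    have h1 : z * a = a * z := h
    rw [h1]
    group

theorem cA_pow {a b : Γ} (h : Rel a b) (m : ℕ) : cA a ((b * a * b⁻¹) ^ m) = 1 := by
  rw [cA_one_iff]
  have h1 := rel_pow h 1 m
  rw [zpow_one] at h1
  rw [h1]
  exact (Commute.refl a).zpow_left _

theorem cA_zpow {a b : Γ} (h : Rel a b) (m : ℤ) : cA a ((b * a * b⁻¹) ^ m) = 1 := by
  rcases Int.eq_nat_or_neg m with ⟨k, rfl | rfl⟩
  · rw [zpow_natCast]
    exact cA_pow h k
  · rw [cA_one_iff, zpow_neg, zpow_natCast, inv_inv]
    have h1 := rel_pow h 1 k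
    rw [zpow_one] at h1
    generalize (b * a * b⁻¹) ^ k = y at h1
    have h2 : a = y⁻¹ * a ^ (1 * 2 ^ k : ℤ) * y := by
      rw [← h1]
      group
    have h3 : Commute (y⁻¹ * a * y) (y⁻¹ * a ^ (1 * 2 ^ k : ℤ) * y) := by
      have := ((Commute.refl a).zpow_right (1 * 2 ^ k : ℤ)).conj y⁻¹
      simpa using this
    rw [← h2] at h3
    exact h3

/-- the word for `cA` -/
def cAW (y : Wt) : Wt :=
  (y ++ [(0, true)] ++ inv4 y) ++ [(0, true)] ++ inv4 (y ++ [(0, true)] ++ inv4 y) ++
    inv4 [(0, true)]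

theorem ev_cAW (a b x y : Γ) (t : Wt) : ev4 a b x y (cAW t) = cA a (ev4 a b x y t) := by
  unfold cAW cA
  simp only [ev4_append, ev4_inv, ev4_a]

/-- the word for the law with exponent sum `-1` -/
def eW : Wt :=
  inv4 [(2, true)] ++ Rep.ppW ++ (bc (bc [(0, true)]) ++ (inv4 Rep.ppW ++ [(2, true)]) ++
    inv4 (bc (bc [(0, true)])) ++ inv4 (inv4 Rep.ppW ++ [(2, true)]))

theorem ev_eW (a b x y : Γ) : ev4 a b x y eW =
    x⁻¹ * PP a b x * ((b * (b * a * b⁻¹) * b⁻¹) * ((PP a b x)⁻¹ * x) *
      (b * (b * a * b⁻¹) * b⁻¹)⁻¹ * ((PP a b x)⁻¹ * x)⁻¹) := by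
  unfold eW
  simp only [ev4_append, ev4_inv, Rep.ev_ppW, ev4_bc, ev4_a, ev4_x]

theorem ev_eW_val {a b : Γ} (h : Rel a b) (u : ℕ) (w : ℤ) (y : Γ) :
    ev4 a b (a ^ w * (b * a * b⁻¹) ^ u) y eW = 1 := by
  rw [ev_eW, PP_val h]
  have h1 : (b * (b * a * b⁻¹) * b⁻¹) * (b * a * b⁻¹) ^ u * (b * (b * a * b⁻¹) * b⁻¹)⁻¹ =
      (b * a * b⁻¹) ^ (2 * u) := by
    have h2 : (b * (b * a * b⁻¹) * b⁻¹) * (b * a * b⁻¹) * (b * (b * a * b⁻¹) * b⁻¹)⁻¹ =
        (b * a * b⁻¹) ^ 2 := by
      have h3 : b * ((b * a * b⁻¹) * a * (b * a * b⁻¹)⁻¹) * b⁻¹ = b * a ^ 2 * b⁻¹ := by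
        unfold Rel at h
        rw [h]
      rw [conj_pow, ← h3]
      group
    rw [pow_mul, ← h2]
    exact conj_pow.symm
  have h4 : (a ^ w)⁻¹ * (a ^ w * (b * a * b⁻¹) ^ u) = (b * a * b⁻¹) ^ u := by
    rw [inv_mul_cancel_left]
  rw [h4, h1, two_mul, pow_add]
  group

theorem ev_eW_one (x y : Γ) : ev4 1 1 x y eW = x⁻¹ := by
  rw [ev_eW]
  unfold PP
  group

theorem ev_cAW_one (x y : Γ) (t : Wt) : ev4 1 1 x y (cAW t) = 1 := by
  rw [ev_cAW]
  unfold cA
  group

end

/-! ### the words of the reduction -/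

/-- the five constraints -/
def cons (t1 t2 : Wt) : List Wt :=
  [cAW [(2, true)], cAW (bc Rep.ppW), cAW (bc ([(2, true)] ++ [(0, true)] ++ inv4 [(2, true)])),
    cAW (bc (bc t1 ++ [(0, true)] ++ inv4 (bc t1))), cAW (bc (bc t2 ++ [(0, true)] ++ inv4 (bc t2)))]

/-- letters -/
def lt3 : Fin 4 → Fin 3 := ![0, 1, 2, 0]

/-- the template `t` with `n` copies of `a` for the letter `3` -/
def sub (n : ℕ) (t : Wt) : Wd :=
  t.flatMap (fun l => if l.1 = 3 then (List.range n).map (fun _ => (0, l.2)) else [(lt3 l.1, l.2)])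

theorem ev3_append {Γ : Type} [Group Γ] (a b x : Γ) (s t : Wd) :
    ev3 a b x (s ++ t) = ev3 a b x s * ev3 a b x t := by
  unfold ev3
  rw [List.map_append, List.prod_append]

theorem ev3_sub {Γ : Type} [Group Γ] (a b x : Γ) (n : ℕ) (t : Wt) :
    ev3 a b x (sub n t) = ev4 a b x (a ^ n) t := by
  induction t with
  | nil => simp [sub, ev3, ev4]
  | cons l t ih =>
    have h1 : ev4 a b x (a ^ n) (l :: t) = ev4 a b x (a ^ n) [l] * ev4 a b x (a ^ n) t :=
      ev4_append a b x (a ^ n) [l] t
    have h2 : sub n (l :: t) = sub n [l] ++ sub n t := by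
      unfold sub
      simp
    rw [h1, h2, ev3_append, ih]
    congr 1
    rcases l with ⟨l, s⟩
    fin_cases l <;> cases s <;> simp [sub, ev3, ev4, lt3]

/-! ### the equation -/

/-- value of a word with constants (the letters `some i`) and the unknown (`none`) -/
def val3 (g : GG) (w : List (Option (Fin 3) × Bool)) : GG :=
  (w.map (fun l => if l.2 = true then (l.1.elim g PresentedGroup.of) else
    (l.1.elim g PresentedGroup.of)⁻¹)).prod

theorem val3_append (g : GG) (s t : List (Option (Fin 3) × Bool)) :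
    val3 g (s ++ t) = val3 g s * val3 g t := by
  unfold val3
  rw [List.map_append, List.prod_append]

def lt4 : Fin 4 → Option (Fin 3) := ![some 0, some 1, none, some 0]

def cs (n : ℕ) (t : Wt) : List (Option (Fin 3) × Bool) :=
  t.flatMap (fun l => if l.1 = 3 then (List.range n).map (fun _ => (some 0, l.2))
    else [(lt4 l.1, l.2)])

theorem val3_cs (g : GG) (n : ℕ) (t : Wt) :
    val3 g (cs n t) = ev4 (PresentedGroup.of 0) (PresentedGroup.of 1) g
      ((PresentedGroup.of 0) ^ n) t := by
  induction t with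
  | nil => simp [cs, val3, ev4]
  | cons l t ih =>
    have h1 := ev4_append (PresentedGroup.of 0 : GG) (PresentedGroup.of 1) g
      ((PresentedGroup.of 0) ^ n) [l] t
    have h2 : cs n (l :: t) = cs n [l] ++ cs n t := by
      unfold cs
      simp
    rw [h2, val3_append, ih]
    rw [List.singleton_append] at h1
    rw [h1]
    congr 1
    rcases l with ⟨l, s⟩
    fin_cases l <;> cases s <;> simp [cs, val3, ev4, lt4]

/-- nested conjugation by the third generator -/
def nestW (n : ℕ) : List Wt → List (Option (Fin 3) × Bool)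
  | [] => []
  | t :: L => [(some 2, true)] ++ (cs n t ++ nestW n L) ++ [(some 2, false)]

theorem val3_nestW (g : GG) (n : ℕ) (L : List Wt) :
    val3 g (nestW n L) = nest (PresentedGroup.of 2)
      (L.map (fun t => ev3 (PresentedGroup.of 0) (PresentedGroup.of 1) g (sub n t))) := by
  induction L with
  | nil => simp [nestW, nest, val3]
  | cons t L ih =>
    unfold nestW
    rw [List.map_cons]
    unfold nest
    rw [val3_append, val3_append, val3_append, ih, val3_cs, ev3_sub]
    simp [val3]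

/-- the equation for the input `n` -/
def eqn (t1 t2 : Wt) (n : ℕ) : List (Option (Fin 3) × Bool) :=
  cs n eW ++ nestW n (cons t1 t2 ++ [eW])

theorem primrec_cs (t : Wt) : Primrec (fun n => cs n t) := by
  induction t with
  | nil => exact Primrec.const _
  | cons l t ih =>
    have h2 : ∀ n, cs n (l :: t) = cs n [l] ++ cs n t := by
      intro n
      unfold cs
      simp
    have h1 : Primrec (fun n => cs n [l]) := by
      by_cases h : l.1 = 3
      · have e : (fun n => cs n [l]) = fun n => (List.range n).map (fun _ => (some 0, l.2)) := by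
          funext n
          unfold cs
          simp [h]
        rw [e]
        exact Primrec.list_map Primrec.list_range (Primrec.const _).to₂
      · have e : (fun n => cs n [l]) = fun _ => [(lt4 l.1, l.2)] := by
          funext n
          unfold cs
          simp [h]
        rw [e]
        exact Primrec.const _
    simp only [h2]
    exact Primrec.list_append.comp h1 ih

theorem primrec_nestW (L : List Wt) : Primrec (fun n => nestW n L) := by
  induction L with
  | nil => exact Primrec.const _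
  | cons t L ih =>
    unfold nestW
    refine Primrec.list_append.comp (Primrec.list_append.comp (Primrec.const _) ?_)
      (Primrec.const _)
    exact Primrec.list_append.comp (primrec_cs t) ih

theorem primrec_eqn (t1 t2 : Wt) : Primrec (eqn t1 t2) :=
  Primrec.list_append.comp (primrec_cs _) (primrec_nestW _)

/-- The one-variable equation `w = 1` has a solution in `GG`. -/
def Solv (w : List (Option (Fin 3) × Bool)) : Prop := ∃ g : GG, val3 g w = 1

theorem rel_GG : Rel (PresentedGroup.of 0 : GG) (PresentedGroup.of 1) := by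
  have h : PresentedGroup.mk ({rBG} : Set (FreeGroup (Fin 3))) rBG = 1 :=
    PresentedGroup.one_of_mem (Set.mem_singleton _)
  unfold rBG at h
  simp only [map_mul, map_inv, map_pow] at h
  unfold Rel
  exact mul_inv_eq_one.1 h

/-- **the reduction** -/
theorem reduction {p : ℕ → Prop} (hp : ∃ (C : List (List Lit)) (r s : ℕ), ∀ n, p n ↔
    ∃ U : Finset ℕ, Sat C U ∧ r * n + s ∈ U) :
    ∃ t1 t2 : Wt, ∀ n, p n ↔ Solv (eqn t1 t2 n) := by
  obtain ⟨C, r, s, hC⟩ := hp
  obtain ⟨R1, R2, ⟨t1, h1⟩, ⟨t2, h2⟩, hR⟩ := num_main C r s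
  refine ⟨t1, t2, fun n => ?_⟩
  rw [hC, hR]
  have hval : ∀ g : GG, val3 g (eqn t1 t2 n) =
      ev3 (PresentedGroup.of 0) (PresentedGroup.of 1) g (sub n eW) *
        nest (PresentedGroup.of 2) (((cons t1 t2).map (sub n) ++ [sub n eW]).map
          (ev3 (PresentedGroup.of 0) (PresentedGroup.of 1) g)) := by
    intro g
    unfold eqn
    rw [val3_append, val3_nestW, val3_cs, ev3_sub]
    congr 2
  constructor
  · rintro ⟨u, w, hu1, hu2⟩
    refine ⟨(PresentedGroup.of 0) ^ w *
      ((PresentedGroup.of 1) * (PresentedGroup.of 0) * (PresentedGroup.of 1)⁻¹) ^ u, ?_⟩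
    rw [hval]
    have hrel := rel_GG
    generalize (PresentedGroup.of 0 : GG) = a at *
    generalize (PresentedGroup.of 1 : GG) = b at *
    have hE : ev3 a b (a ^ w * (b * a * b⁻¹) ^ u) (sub n eW) = 1 := by
      rw [ev3_sub]
      exact ev_eW_val hrel u w _
    have hx : (a ^ w * (b * a * b⁻¹) ^ u) * a * (a ^ w * (b * a * b⁻¹) ^ u)⁻¹ = a ^ (2 ^ u : ℤ) := by
      have h3 := rel_pow hrel 1 u
      rw [zpow_one, one_mul] at h3
      generalize (b * a * b⁻¹) ^ u = y at h3
      calc (a ^ w * y) * a * (a ^ w * y)⁻¹ = a ^ w * (y * a * y⁻¹) * (a ^ w)⁻¹ := by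
            rw [mul_inv_rev]; simp only [mul_assoc]
        _ = _ := by
            rw [h3, ← zpow_add, ← zpow_neg, ← zpow_add]
            congr 1
            ring
    have hR' : ∀ R : ℤ, 0 ≤ R →
        cA a (b * ((b * a * b⁻¹) ^ R * a * ((b * a * b⁻¹) ^ R)⁻¹) * b⁻¹) = 1 := by
      intro R hR0
      obtain ⟨m, rfl⟩ := Int.eq_ofNat_of_zero_le hR0
      have h3 := rel_pow hrel 1 m
      rw [zpow_one, one_mul] at h3
      rw [zpow_natCast, h3, conj_b_zpow]
      exact cA_zpow hrel _
    have hB : ∀ t ∈ cons t1 t2, ev3 a b (a ^ w * (b * a * b⁻¹) ^ u) (sub n t) = 1 := by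
      intro t ht
      rw [ev3_sub]
      unfold cons at ht
      simp only [List.mem_cons, List.not_mem_nil, or_false] at ht
      rcases ht with rfl | rfl | rfl | rfl | rfl
      · rw [ev_cAW, ev4_x, cA_one_iff, hx]
        exact (Commute.refl a).zpow_left _
      · rw [ev_cAW, ev4_bc, Rep.ev_ppW, PP_val hrel, conj_b_zpow]
        exact cA_zpow hrel w
      · rw [ev_cAW, ev4_bc, ev4_append, ev4_append, ev4_inv, ev4_x, ev4_a, hx, conj_b_zpow]
        exact cA_zpow hrel _
      · rw [ev_cAW, ev4_bc, ev4_append, ev4_append, ev4_inv, ev4_bc, ev4_a, h1 GG a b hrel n u w,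
          conj_b_zpow]
        exact hR' _ hu1
      · rw [ev_cAW, ev4_bc, ev4_append, ev4_append, ev4_inv, ev4_bc, ev4_a, h2 GG a b hrel n u w,
          conj_b_zpow]
        exact hR' _ hu2
    have hnest : ∀ (c : GG) (l : List GG), (∀ y ∈ l, y = 1) → nest c l = 1 := by
      intro c l hl
      induction l with
      | nil => rfl
      | cons y l ih =>
        unfold nest
        rw [ih fun y' hy' => hl y' (List.mem_cons_of_mem _ hy'), hl y List.mem_cons_self]
        group
    rw [hE, one_mul]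
    apply hnest
    intro y hy
    rw [List.map_append, List.mem_append] at hy
    rcases hy with hy | hy
    · rw [List.map_map] at hy
      obtain ⟨t, ht, rfl⟩ := List.mem_map.1 hy
      exact hB t ht
    · simp only [List.map_cons, List.map_nil, List.mem_singleton] at hy
      rw [hy]
      exact hE
  · rintro ⟨g, hg⟩
    rw [hval] at hg
    obtain ⟨K, _, a, b, hrel, hK1, hK2⟩ := Pool.Agent.Run7.h617.OV.t_K
    obtain ⟨x, hx⟩ := t_Wr K a b hrel (sub n eW) ((cons t1 t2).map (sub n))
      (by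
        intro Γ _ x
        rw [ev3_sub]
        exact ev_eW_one x _)
      (by
        intro t ht Γ _ x
        obtain ⟨t', ht', rfl⟩ := List.mem_map.1 ht
        rw [ev3_sub]
        unfold cons at ht'
        simp only [List.mem_cons, List.not_mem_nil, or_false] at ht'
        rcases ht' with rfl | rfl | rfl | rfl | rfl <;> exact ev_cAW_one x _ _)
      g hg
    have hx' : ∀ t ∈ cons t1 t2, ev4 a b x (a ^ n) t = 1 := by
      intro t ht
      rw [← ev3_sub]
      exact hx _ (List.mem_map_of_mem ht)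
    have c1 := hx' (cAW [(2, true)]) (by simp [cons])
    have c2 := hx' (cAW (bc Rep.ppW)) (by simp [cons])
    have c3 := hx' (cAW (bc ([(2, true)] ++ [(0, true)] ++ inv4 [(2, true)]))) (by simp [cons])
    have c4 := hx' (cAW (bc (bc t1 ++ [(0, true)] ++ inv4 (bc t1)))) (by simp [cons])
    have c5 := hx' (cAW (bc (bc t2 ++ [(0, true)] ++ inv4 (bc t2)))) (by simp [cons])
    rw [ev_cAW, ev4_x] at c1
    rw [ev_cAW, ev4_bc, Rep.ev_ppW] at c2
    rw [ev_cAW, ev4_bc, ev4_append, ev4_append, ev4_inv, ev4_x, ev4_a] at c3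
    obtain ⟨u, w, rfl⟩ := hK1 x c1 c2 c3
    rw [ev_cAW, ev4_bc, ev4_append, ev4_append, ev4_inv, ev4_bc, ev4_a, h1 K a b hrel n u w,
      conj_b_zpow] at c4
    rw [ev_cAW, ev4_bc, ev4_append, ev4_append, ev4_inv, ev4_bc, ev4_a, h2 K a b hrel n u w,
      conj_b_zpow] at c5
    exact ⟨u, w, hK2 _ c4, hK2 _ c5⟩

/-- A universal partial function. -/
def uf (n : ℕ) : Part ℕ := (Denumerable.ofNat Nat.Partrec.Code n).eval 0

theorem uf_partrec : Partrec uf :=
  Nat.Partrec.Code.eval_part.comp (Computable.ofNat Nat.Partrec.Code) (Computable.const (0 : ℕ))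

theorem uf_not_computable : ¬ ComputablePred (fun n => (uf n).Dom) := by
  intro h
  refine ComputablePred.halting_problem 0 ?_
  have : ManyOneReducible (fun c : Nat.Partrec.Code => (Nat.Partrec.Code.eval c 0).Dom)
      (fun n => (uf n).Dom) := by
    refine ⟨Encodable.encode, Computable.encode, ?_⟩
    intro c
    simp [uf, Denumerable.ofNat_encode]
  exact ComputablePred.computable_of_manyOneReducible this h

/-- **undecidability**, from piece LOG -/
theorem undec (hLog : St_Log) : ¬ ComputablePred Solv := by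
  intro h
  apply uf_not_computable
  obtain ⟨t1, t2, ht⟩ := reduction (hLog (fun n => (uf n).Dom) uf_partrec.dom_re)
  exact ComputablePred.computable_of_manyOneReducible
    ⟨eqn t1 t2, (primrec_eqn t1 t2).to_comp, ht⟩ h

end Pool.Agent.Run7.h955.OV
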