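import Pool.Agent.Run7.h955.OV.Iface

/-!
# Words in one unknown with given exponential values
-/

set_option autoImplicit false

namespace Pool.Agent.Run7.h955.OV

/-- words in the letters `0 ↦ a`, `1 ↦ b`, `2 ↦ x`, `3 ↦ a ^ n` -/
abbrev Wt : Type := List (Fin 4 × Bool)

section

variable {Γ : Type} [Group Γ]

def ev4 (a b x y : Γ) (t : Wt) : Γ :=
  (t.map (fun l => if l.2 = true then ![a, b, x, y] l.1 else (![a, b, x, y] l.1)⁻¹)).prod

theorem ev4_nil (a b x y : Γ) : ev4 a b x y [] = 1 := rfl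

theorem ev4_append (a b x y : Γ) (s t : Wt) :
    ev4 a b x y (s ++ t) = ev4 a b x y s * ev4 a b x y t := by
  unfold ev4
  rw [List.map_append, List.prod_append]

theorem ev4_single (a b x y : Γ) (l : Fin 4) :
    ev4 a b x y [(l, true)] = ![a, b, x, y] l := by
  simp [ev4]

theorem ev4_a (a b x y : Γ) : ev4 a b x y [(0, true)] = a := by simp [ev4]
theorem ev4_b (a b x y : Γ) : ev4 a b x y [(1, true)] = b := by simp [ev4]
theorem ev4_x (a b x y : Γ) : ev4 a b x y [(2, true)] = x := by simp [ev4]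
theorem ev4_y (a b x y : Γ) : ev4 a b x y [(3, true)] = y := by simp [ev4]

/-- inverse word -/
def inv4 (t : Wt) : Wt := (t.map (fun l => (l.1, !l.2))).reverse

theorem inv4_cons (l : Fin 4 × Bool) (t : Wt) : inv4 (l :: t) = inv4 t ++ [(l.1, !l.2)] := by
  unfold inv4
  rw [List.map_cons, List.reverse_cons]

theorem ev4_inv (a b x y : Γ) (t : Wt) : ev4 a b x y (inv4 t) = (ev4 a b x y t)⁻¹ := by
  induction t with
  | nil => simp [inv4, ev4]
  | cons l t ih =>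
    rw [inv4_cons, ev4_append, ih]
    have h1 : ev4 a b x y (l :: t) = ev4 a b x y [l] * ev4 a b x y t := ev4_append a b x y [l] t
    rw [h1, mul_inv_rev]
    congr 1
    rcases l with ⟨l, s⟩
    cases s <;> simp [ev4]

/-- words for the value `b (·) b⁻¹` -/
def bc (t : Wt) : Wt := [(1, true)] ++ t ++ inv4 [(1, true)]

theorem ev4_bc (a b x y : Γ) (t : Wt) : ev4 a b x y (bc t) = b * ev4 a b x y t * b⁻¹ := by
  unfold bc
  rw [ev4_append, ev4_append, ev4_inv, ev4_b]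

theorem ev4_hom {Δ : Type} [Group Δ] (φ : Γ →* Δ) (a b x y : Γ) (t : Wt) :
    φ (ev4 a b x y t) = ev4 (φ a) (φ b) (φ x) (φ y) t := by
  induction t with
  | nil => simp [ev4]
  | cons l t ih =>
    have h1 : ev4 a b x y (l :: t) = ev4 a b x y [l] * ev4 a b x y t := ev4_append a b x y [l] t
    have h2 : ev4 (φ a) (φ b) (φ x) (φ y) (l :: t) =
      ev4 (φ a) (φ b) (φ x) (φ y) [l] * ev4 (φ a) (φ b) (φ x) (φ y) t :=
        ev4_append _ _ _ _ [l] t
    rw [h1, h2, map_mul, ih]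
    congr 1
    rcases l with ⟨l, s⟩
    fin_cases l <;> cases s <;> simp [ev4]

/-! ### consequences of the relation -/

theorem rel_pow {a b : Γ} (h : Rel a b) (f : ℤ) : ∀ m : ℕ,
    (b * a * b⁻¹) ^ m * a ^ f * ((b * a * b⁻¹) ^ m)⁻¹ = a ^ (f * 2 ^ m) := by
  have h1 : ∀ f : ℤ, (b * a * b⁻¹) * a ^ f * (b * a * b⁻¹)⁻¹ = a ^ (f * 2) := by
    intro f
    rw [← conj_zpow]
    unfold Rel at h
    rw [h, mul_comm f 2, zpow_mul]
    norm_cast
  generalize b * a * b⁻¹ = q at h1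
  intro m
  induction m with
  | zero => simp
  | succ m ih =>
    calc q ^ (m + 1) * a ^ f * (q ^ (m + 1))⁻¹
        = q * (q ^ m * a ^ f * (q ^ m)⁻¹) * q⁻¹ := by
          rw [pow_succ', mul_inv_rev]; simp only [mul_assoc]
      _ = a ^ (f * 2 ^ (m + 1)) := by
          rw [ih, h1, pow_succ, mul_assoc]

theorem conj_b_zpow (a b : Γ) (T : ℤ) : b * a ^ T * b⁻¹ = (b * a * b⁻¹) ^ T := by
  rw [conj_zpow]

/-- the value of `PP` -/
theorem PP_val {a b : Γ} (h : Rel a b) (u : ℕ) (w : ℤ) :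
    PP a b (a ^ w * (b * a * b⁻¹) ^ u) = a ^ w := by
  have h1 := rel_pow h w 1
  rw [pow_one, pow_one] at h1
  unfold PP
  generalize b * a * b⁻¹ = q at h1
  calc q * (a ^ w * q ^ u) * q⁻¹ * (a ^ w * q ^ u)⁻¹
      = (q * a ^ w * q⁻¹) * a ^ (-w) := by group
    _ = a ^ w := by rw [h1, ← zpow_add]; congr 1; ring

end

/-- functions of `n`, `u`, `w` given by words: the value at `x = a ^ w * q ^ u` is `a ^ f` -/
def Rep (f : ℕ → ℕ → ℤ → ℤ) : Prop :=
  ∃ t : Wt, ∀ (Γ : Type) [Group Γ] (a b : Γ), Rel a b → ∀ (n u : ℕ) (w : ℤ),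
    ev4 a b (a ^ w * (b * a * b⁻¹) ^ u) (a ^ n) t = a ^ (f n u w)

namespace Rep

theorem congr {f g : ℕ → ℕ → ℤ → ℤ} (hf : Rep f) (h : ∀ n u w, g n u w = f n u w) : Rep g := by
  obtain ⟨t, ht⟩ := hf
  refine ⟨t, fun Γ _ a b hR n u w => ?_⟩
  rw [h]
  exact ht Γ a b hR n u w

theorem add {f g : ℕ → ℕ → ℤ → ℤ} (hf : Rep f) (hg : Rep g) :
    Rep (fun n u w => f n u w + g n u w) := by
  obtain ⟨t, ht⟩ := hf
  obtain ⟨s, hs⟩ := hg
  refine ⟨t ++ s, fun Γ _ a b hR n u w => ?_⟩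
  rw [ev4_append, ht Γ a b hR, hs Γ a b hR, zpow_add]

theorem neg {f : ℕ → ℕ → ℤ → ℤ} (hf : Rep f) : Rep (fun n u w => - f n u w) := by
  obtain ⟨t, ht⟩ := hf
  refine ⟨inv4 t, fun Γ _ a b hR n u w => ?_⟩
  rw [ev4_inv, ht Γ a b hR, zpow_neg]

theorem sub {f g : ℕ → ℕ → ℤ → ℤ} (hf : Rep f) (hg : Rep g) :
    Rep (fun n u w => f n u w - g n u w) :=
  (hf.add hg.neg).congr fun _ _ _ => by ring

theorem one : Rep (fun _ _ _ => 1) :=
  ⟨[(0, true)], fun Γ _ a b _ n u w => by rw [ev4_a, zpow_one]⟩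

theorem constN (c : ℕ) : Rep (fun _ _ _ => (c : ℤ)) := by
  induction c with
  | zero => exact ⟨[], fun Γ _ a b _ n u w => by simp [ev4]⟩
  | succ c ih => exact (ih.add one).congr fun _ _ _ => by push_cast; ring

theorem const (c : ℤ) : Rep (fun _ _ _ => c) := by
  rcases Int.eq_nat_or_neg c with ⟨m, rfl | rfl⟩
  · exact constN m
  · exact (constN m).neg

theorem varN : Rep (fun n _ _ => (n : ℤ)) :=
  ⟨[(3, true)], fun Γ _ a b _ n u w => by rw [ev4_y, zpow_natCast]⟩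

/-- word for `PP` -/
def ppW : Wt :=
  bc [(0, true)] ++ [(2, true)] ++ inv4 (bc [(0, true)]) ++ inv4 [(2, true)]

theorem ev_ppW {Γ : Type} [Group Γ] (a b x y : Γ) : ev4 a b x y ppW = PP a b x := by
  unfold ppW PP
  rw [ev4_append, ev4_append, ev4_append, ev4_inv, ev4_inv, ev4_bc, ev4_a, ev4_x]

theorem varW : Rep (fun _ _ w => w) :=
  ⟨ppW, fun Γ _ a b hR n u w => by rw [ev_ppW, PP_val hR]⟩

theorem varU : Rep (fun _ u _ => (u : ℤ)) := by
  refine ⟨inv4 [(1, true)] ++ (inv4 ppW ++ [(2, true)]) ++ [(1, true)],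
    fun Γ _ a b hR n u w => ?_⟩
  rw [ev4_append, ev4_append, ev4_append, ev4_inv, ev4_inv, ev_ppW, ev4_b, ev4_x, PP_val hR,
    inv_mul_cancel_left, ← zpow_natCast, ← conj_b_zpow]
  group

/-- multiplication by a power of two -/
theorem pow2 {f T : ℕ → ℕ → ℤ → ℤ} (hf : Rep f) (hT : Rep T) (h0 : ∀ n u w, 0 ≤ T n u w) :
    Rep (fun n u w => f n u w * 2 ^ (T n u w).toNat) := by
  obtain ⟨t, ht⟩ := hf
  obtain ⟨s, hs⟩ := hT
  refine ⟨bc s ++ t ++ inv4 (bc s), fun Γ _ a b hR n u w => ?_⟩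
  rw [ev4_append, ev4_append, ev4_inv, ev4_bc, ht Γ a b hR, hs Γ a b hR,
    ← rel_pow hR]
  have : b * a ^ (T n u w) * b⁻¹ = (b * a * b⁻¹) ^ (T n u w).toNat := by
    rw [conj_b_zpow]
    conv_lhs => rw [← Int.toNat_of_nonneg (h0 n u w)]
    rw [zpow_natCast]
  rw [this]

end Rep

/-- functions such that the class `Rep` is closed under multiplication by them -/
def Mul (D : ℕ → ℕ → ℤ → ℤ) : Prop := ∀ f, Rep f → Rep (fun n u w => f n u w * D n u w)

namespace Mul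

theorem congr {f g : ℕ → ℕ → ℤ → ℤ} (hf : Mul f) (h : ∀ n u w, g n u w = f n u w) : Mul g :=
  fun k hk => (hf k hk).congr fun _ _ _ => by rw [h]

theorem rep {D : ℕ → ℕ → ℤ → ℤ} (h : Mul D) : Rep D :=
  (h _ Rep.one).congr fun _ _ _ => (one_mul _).symm

theorem add {f g : ℕ → ℕ → ℤ → ℤ} (hf : Mul f) (hg : Mul g) :
    Mul (fun n u w => f n u w + g n u w) :=
  fun k hk => ((hf k hk).add (hg k hk)).congr fun _ _ _ => by ring

theorem sub {f g : ℕ → ℕ → ℤ → ℤ} (hf : Mul f) (hg : Mul g) :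
    Mul (fun n u w => f n u w - g n u w) :=
  fun k hk => ((hf k hk).sub (hg k hk)).congr fun _ _ _ => by ring

theorem mul {f g : ℕ → ℕ → ℤ → ℤ} (hf : Mul f) (hg : Mul g) :
    Mul (fun n u w => f n u w * g n u w) :=
  fun k hk => (hg _ (hf k hk)).congr fun _ _ _ => by ring

theorem one : Mul (fun _ _ _ => 1) := fun _ hk => hk.congr fun _ _ _ => by ring

theorem const (c : ℤ) : Mul (fun _ _ _ => c) := by
  have h1 : ∀ m : ℕ, Mul (fun _ _ _ => (m : ℤ)) := by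
    intro m
    induction m with
    | zero => exact fun k hk => (Rep.const 0).congr fun _ _ _ => by simp
    | succ m ih => exact (ih.add one).congr fun _ _ _ => by push_cast; ring
  rcases Int.eq_nat_or_neg c with ⟨m, rfl | rfl⟩
  · exact h1 m
  · exact ((h1 0).sub (h1 m)).congr fun _ _ _ => by simp

theorem pow {f : ℕ → ℕ → ℤ → ℤ} (hf : Mul f) (k : ℕ) : Mul (fun n u w => f n u w ^ k) := by
  induction k with
  | zero => exact one.congr fun _ _ _ => by simp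
  | succ k ih => exact (ih.mul hf).congr fun _ _ _ => by rw [pow_succ]

theorem two {T : ℕ → ℕ → ℤ → ℤ} (hT : Rep T) (h0 : ∀ n u w, 0 ≤ T n u w) :
    Mul (fun n u w => 2 ^ (T n u w).toNat) :=
  fun _ hk => hk.pow2 hT h0

/-- natural exponents -/
theorem twoN {T : ℕ → ℕ → ℕ} (hT : Rep (fun n u _ => (T n u : ℤ))) :
    Mul (fun n u _ => 2 ^ T n u) :=
  (two hT (fun _ _ _ => Int.natCast_nonneg _)).congr fun _ _ _ => by simp

/-- powers of a power of two -/
theorem powN (c : ℕ) {T : ℕ → ℕ → ℕ} (hT : Rep (fun n u _ => (T n u : ℤ))) :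
    Mul (fun n u _ => (2 ^ c) ^ T n u) := by
  refine (twoN (T := fun n u => c * T n u) ?_).congr fun _ _ _ => by rw [pow_mul]
  exact (((Mul.const (c : ℤ)) _ hT)).congr fun _ _ _ => by push_cast; ring

end Mul

end Pool.Agent.Run7.h955.OV
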