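import Pool.Agent.Run7.h955.OV.Tot
import Pool.Agent.Run7.h955.OV.Tmpl
import Pool.Agent.Run7.h882.OV.P_PAR

/-!
# From clauses to two inequalities between exponential terms in two unknowns
-/

set_option autoImplicit false

namespace Pool.Agent.Run7.h955.OV

open Finset

/-! ### fractions -/

def Fr (F : ℕ → ℕ → ℤ) : Prop :=
  ∃ D : ℕ → ℕ → ℤ, (∀ n u, 0 < D n u) ∧ Mul (fun n u _ => D n u) ∧ Rep (fun n u _ => F n u * D n u)

def FrM (F : ℕ → ℕ → ℤ) : Prop :=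
  ∃ D : ℕ → ℕ → ℤ, (∀ n u, 0 < D n u) ∧ Mul (fun n u _ => D n u) ∧ Mul (fun n u _ => F n u * D n u)

theorem Fr.congr {F G : ℕ → ℕ → ℤ} (hF : Fr F) (h : ∀ n u, G n u = F n u) : Fr G := by
  obtain ⟨D, h1, h2, h3⟩ := hF
  exact ⟨D, h1, h2, h3.congr fun n u _ => by rw [h]⟩

theorem FrM.congr {F G : ℕ → ℕ → ℤ} (hF : FrM F) (h : ∀ n u, G n u = F n u) : FrM G := by
  obtain ⟨D, h1, h2, h3⟩ := hF
  exact ⟨D, h1, h2, h3.congr fun n u _ => by rw [h]⟩

theorem FrM.toFr {F : ℕ → ℕ → ℤ} (hF : FrM F) : Fr F := by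
  obtain ⟨D, h1, h2, h3⟩ := hF
  exact ⟨D, h1, h2, h3.rep⟩

theorem FrM.ofMul {F : ℕ → ℕ → ℤ} (hF : Mul (fun n u _ => F n u)) : FrM F :=
  ⟨fun _ _ => 1, fun _ _ => one_pos, Mul.one, hF.congr fun _ _ _ => by ring⟩

theorem Fr.ofRep {F : ℕ → ℕ → ℤ} (hF : Rep (fun n u _ => F n u)) : Fr F :=
  ⟨fun _ _ => 1, fun _ _ => one_pos, Mul.one, hF.congr fun _ _ _ => by ring⟩

theorem Fr.add {F G : ℕ → ℕ → ℤ} (hF : Fr F) (hG : Fr G) : Fr (fun n u => F n u + G n u) := by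
  obtain ⟨D, h1, h2, h3⟩ := hF
  obtain ⟨E, g1, g2, g3⟩ := hG
  refine ⟨fun n u => D n u * E n u, fun n u => mul_pos (h1 n u) (g1 n u), h2.mul g2, ?_⟩
  exact ((g2 _ h3).add (h2 _ g3)).congr fun n u _ => by ring

theorem Fr.sub {F G : ℕ → ℕ → ℤ} (hF : Fr F) (hG : Fr G) : Fr (fun n u => F n u - G n u) := by
  obtain ⟨D, h1, h2, h3⟩ := hF
  obtain ⟨E, g1, g2, g3⟩ := hG
  refine ⟨fun n u => D n u * E n u, fun n u => mul_pos (h1 n u) (g1 n u), h2.mul g2, ?_⟩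
  exact ((g2 _ h3).sub (h2 _ g3)).congr fun n u _ => by ring

theorem FrM.add {F G : ℕ → ℕ → ℤ} (hF : FrM F) (hG : FrM G) : FrM (fun n u => F n u + G n u) := by
  obtain ⟨D, h1, h2, h3⟩ := hF
  obtain ⟨E, g1, g2, g3⟩ := hG
  refine ⟨fun n u => D n u * E n u, fun n u => mul_pos (h1 n u) (g1 n u), h2.mul g2, ?_⟩
  exact ((h3.mul g2).add (g3.mul h2)).congr fun n u _ => by ring

theorem FrM.mul {F G : ℕ → ℕ → ℤ} (hF : FrM F) (hG : FrM G) : FrM (fun n u => F n u * G n u) := by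
  obtain ⟨D, h1, h2, h3⟩ := hF
  obtain ⟨E, g1, g2, g3⟩ := hG
  refine ⟨fun n u => D n u * E n u, fun n u => mul_pos (h1 n u) (g1 n u), h2.mul g2, ?_⟩
  exact (h3.mul g3).congr fun n u _ => by ring

theorem Fr.mulM {F G : ℕ → ℕ → ℤ} (hF : Fr F) (hG : FrM G) : Fr (fun n u => F n u * G n u) := by
  obtain ⟨D, h1, h2, h3⟩ := hF
  obtain ⟨E, g1, g2, g3⟩ := hG
  refine ⟨fun n u => D n u * E n u, fun n u => mul_pos (h1 n u) (g1 n u), h2.mul g2, ?_⟩
  exact (g3 _ h3).congr fun n u _ => by ring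

theorem FrM.const (c : ℤ) : FrM (fun _ _ => c) := FrM.ofMul (Mul.const c)

/-- geometric sums -/
theorem FrM.gs (h : ℕ) {N S : ℕ → ℕ → ℕ} (hN : Mul (fun n u _ => (N n u : ℤ)))
    (hS : Rep (fun n u _ => (S n u : ℤ))) (hpos : ∀ n u, 0 < S n u) :
    FrM (fun n u => (gs (2 ^ (h + 1)) (N n u) (S n u) : ℤ)) := by
  refine ⟨fun n u => (2 ^ (h + 1)) ^ S n u - 1, ?_, (Mul.powN (h + 1) hS).sub Mul.one, ?_⟩
  · intro n u
    have : (1 : ℤ) < (2 ^ (h + 1)) ^ S n u := by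
      apply one_lt_pow₀ _ (hpos n u).ne'
      exact one_lt_pow₀ (by norm_num) (by omega)
    linarith
  · have h1 : Rep (fun n u _ => ((N n u * S n u : ℕ) : ℤ)) :=
      (hN _ hS).congr fun _ _ _ => by push_cast; ring
    refine ((Mul.powN (h + 1) h1).sub Mul.one).congr fun n u _ => ?_
    unfold Pool.Agent.Run7.h955.OV.gs
    push_cast
    have h2 := geom_sum_mul ((2 ^ (h + 1) : ℤ) ^ S n u) (N n u)
    have h3 : ∀ i : ℕ, ((2 ^ (h + 1) : ℤ)) ^ (i * S n u) = ((2 ^ (h + 1) : ℤ) ^ S n u) ^ i := by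
      intro i
      rw [mul_comm, pow_mul]
    simp only [h3]
    exact h2

theorem FrM.full (h : ℕ) {R : ℕ → ℕ → ℕ} (hR : Rep (fun n u _ => (R n u : ℤ))) :
    FrM (fun n u => (full (2 ^ (h + 1)) (R n u) : ℤ)) := by
  refine ⟨fun n u => 2 ^ (h + 1) - 1, ?_, (Mul.const _), ?_⟩
  · intro n u
    have : (1 : ℤ) < 2 ^ (h + 1) := one_lt_pow₀ (by norm_num) (by omega)
    linarith
  · refine ((Mul.powN (h + 1) hR).sub Mul.one).congr fun n u _ => ?_
    unfold Pool.Agent.Run7.h955.OV.full num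
    push_cast
    simp only [one_mul]
    exact geom_sum_mul _ _

/-! ### literals with parameter -/

/-- the literal with the constant `e + e₁ n` -/
def mk (p : Lit × ℕ) (n : ℕ) : Lit := ⟨p.1.pos, p.1.a, p.1.b, p.1.c, p.1.e + p.2 * n⟩

def Nfn (_ u : ℕ) : ℕ := 2 ^ (u + 1)
def Qfn (k n u : ℕ) : ℕ := 2 ^ (k + n + u)

theorem rep_u1 : Rep (fun _ u _ => ((u + 1 : ℕ) : ℤ)) :=
  (Rep.varU.add Rep.one).congr fun _ _ _ => by push_cast; ring

theorem mul_Nfn : Mul (fun n u _ => (Nfn n u : ℤ)) :=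
  (Mul.twoN (T := fun _ u => u + 1) rep_u1).congr fun _ _ _ => by unfold Nfn; push_cast; ring

theorem mul_Qfn (k : ℕ) : Mul (fun n u _ => (Qfn k n u : ℤ)) := by
  refine (Mul.twoN (T := fun n u => k + n + u) ?_).congr fun _ _ _ => by unfold Qfn; push_cast; ring
  exact (((Rep.const (k : ℤ)).add Rep.varN).add Rep.varU).congr fun _ _ _ => by push_cast; ring

theorem mul_Qpow (k j : ℕ) : Mul (fun n u _ => ((Qfn k n u ^ j : ℕ) : ℤ)) :=
  ((mul_Qfn k).pow j).congr fun _ _ _ => by push_cast; ring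

theorem big_mk {k : ℕ} {p : Lit × ℕ} (hk : 4 * (p.1.a + p.1.b + p.1.c + p.1.e + p.2) + 4 ≤ k)
    (n u : ℕ) : Big (Nfn n u) (Qfn k n u) (mk p n) := by
  unfold Big mk Nfn Qfn
  simp only
  have h1 : n + 1 ≤ 2 ^ n := Nat.lt_pow_self (by norm_num)
  have h2 : k < 2 ^ k := Nat.lt_pow_self (by norm_num)
  have h3 : 1 ≤ 2 ^ u := Nat.one_le_two_pow
  have h4 : p.1.e + p.2 * n ≤ (p.1.e + p.2) * 2 ^ n := by
    have : (p.1.e + p.2) * (n + 1) ≤ (p.1.e + p.2) * 2 ^ n := Nat.mul_le_mul_left _ h1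
    nlinarith
  have h5 : p.1.e + p.2 * n ≤ (p.1.e + p.2) * (2 ^ n * 2 ^ u) := by
    refine h4.trans ?_
    apply Nat.mul_le_mul_left
    nlinarith [Nat.one_le_two_pow (n := n)]
  have h6 : 2 ^ u ≤ 2 ^ n * 2 ^ u := by nlinarith [Nat.one_le_two_pow (n := n)]
  have h7 : (p.1.a + p.1.b + p.1.c) * 2 ^ (u + 1) ≤
      (p.1.a + p.1.b + p.1.c) * 2 * (2 ^ n * 2 ^ u) := by
    rw [pow_succ, mul_assoc (p.1.a + p.1.b + p.1.c) 2]
    apply Nat.mul_le_mul_left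
    omega
  have h8 : 2 ^ (k + n + u) = 2 ^ k * (2 ^ n * 2 ^ u) := by rw [pow_add, pow_add]; ring
  have h9 : 0 < 2 ^ n * 2 ^ u := by positivity
  rw [h8]
  have h10 : 2 ^ (u + 1) ≤ 2 * (2 ^ n * 2 ^ u) := by rw [pow_succ]; omega
  calc 2 * ((p.1.a + p.1.b + p.1.c) * 2 ^ (u + 1) + (p.1.e + p.2 * n) + 2 ^ (u + 1))
      ≤ 2 * ((p.1.a + p.1.b + p.1.c) * 2 * (2 ^ n * 2 ^ u) + (p.1.e + p.2) * (2 ^ n * 2 ^ u) +
          2 * (2 ^ n * 2 ^ u)) := by omega
    _ = (4 * (p.1.a + p.1.b + p.1.c) + 2 * (p.1.e + p.2) + 4) * (2 ^ n * 2 ^ u) := by ring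
    _ < 2 ^ k * (2 ^ n * 2 ^ u) := by
        apply Nat.mul_lt_mul_of_pos_right _ h9
        omega

theorem u_lt_Nfn (n u : ℕ) : u + 1 < Nfn n u := Nat.lt_pow_self (by norm_num)

theorem Nfn_lt_Qfn {k : ℕ} (hk : 4 ≤ k) (n u : ℕ) : 2 * Nfn n u < Qfn k n u := by
  unfold Nfn Qfn
  rw [← pow_succ']
  exact Nat.pow_lt_pow_right (by norm_num) (by omega)

/-! ### sizes -/

theorem gs_le {X : ℕ} (hX : 2 ≤ X) (N S : ℕ) : gs X N S ≤ X ^ (N + N * S) := by
  have h1 : N ≤ X ^ N := (Nat.lt_pow_self (by omega)).le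
  calc gs X N S ≤ ∑ _i ∈ range N, X ^ (N * S) := by
        unfold gs
        apply sum_le_sum
        intro i hi
        apply Nat.pow_le_pow_right (by omega)
        exact Nat.mul_le_mul_right _ (mem_range.1 hi).le
    _ = N * X ^ (N * S) := by simp
    _ ≤ X ^ (N + N * S) := by
        rw [pow_add]
        exact Nat.mul_le_mul_right _ h1

theorem pow_le_full {X R x : ℕ} (hx : x < R) : X ^ x ≤ full X R := by
  unfold full num
  simp only [one_mul]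
  exact Finset.single_le_sum (f := fun i => X ^ i) (fun _ _ => Nat.zero_le _) (mem_range.2 hx)

theorem arr_le_full {X N Q u : ℕ} {l : Lit} (hX : 2 ≤ X) (hN : 0 < N) (hu : u < N)
    (hl : Big N Q l) : arr X N Q u l ≤ full X (Q ^ 5) := by
  have h2N : 2 * N < Q := by unfold Big at hl; omega
  have h1 : arr X N Q u l ≤ X ^ (Q + (N + N * Q) + (N + N * Q ^ 2) + (N + N * Q ^ 3) + N) := by
    unfold arr
    rw [pow_add X _ N, pow_add X _ (N + N * Q ^ 3), pow_add X _ (N + N * Q ^ 2),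
      pow_add X _ (N + N * Q)]
    have mono : ∀ S d : ℕ, gs X N (S - d) ≤ X ^ (N + N * S) := by
      intro S d
      refine (gs_le hX N (S - d)).trans (Nat.pow_le_pow_right (by omega) ?_)
      have := Nat.mul_le_mul_left N (Nat.sub_le S d)
      omega
    apply Nat.mul_le_mul
    · apply Nat.mul_le_mul
      · apply Nat.mul_le_mul
        · apply Nat.mul_le_mul
          · exact Nat.pow_le_pow_right (by omega) (Nat.sub_le _ _)
          · exact mono _ _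
        · exact mono _ _
      · exact mono _ _
    · exact hu.le.trans (Nat.lt_pow_self (by omega)).le
  refine h1.trans (pow_le_full ?_)
  obtain ⟨y, hy⟩ := Nat.exists_eq_add_of_le (show 3 ≤ Q by omega)
  have h2 : Q + (N + N * Q) + (N + N * Q ^ 2) + (N + N * Q ^ 3) + N =
    Q + 4 * N + N * (Q + Q ^ 2 + Q ^ 3) := by ring
  rw [h2]
  have h3 : 2 * (N * (Q + Q ^ 2 + Q ^ 3)) ≤ Q * (Q + Q ^ 2 + Q ^ 3) := by
    rw [← mul_assoc]
    exact Nat.mul_le_mul_right _ h2N.le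
  have h4 : 2 * (Q + 4 * N) ≤ 6 * Q := by omega
  have h5 : 6 * Q + Q * (Q + Q ^ 2 + Q ^ 3) < 2 * Q ^ 5 := by
    rw [hy]
    nlinarith [Nat.zero_le y, Nat.zero_le (y ^ 2), Nat.zero_le (y ^ 3), Nat.zero_le (y ^ 4),
      Nat.zero_le (y ^ 5)]
  omega

theorem fnum_le {X N Q u : ℕ} {l : Lit} (hX : 2 ≤ X) (hN : 0 < N) (hu : u < N)
    (hl : Big N Q l) : fnum X N Q (Q ^ 5) u l ≤ full X (Q ^ 5) := by
  unfold fnum
  split_ifs
  · exact Nat.sub_le _ _
  · exact arr_le_full hX hN hu hl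

theorem cnum_lt {h N Q u : ℕ} (hN : 0 < N) (hu : u < N) (cl : List Lit)
    (hl : ∀ l ∈ cl, Big N Q l) (hlen : cl.length ≤ 2 ^ h) :
    cnum h (2 ^ (h + 1)) N Q (Q ^ 5) u cl < (2 ^ (h + 1)) ^ (Q ^ 5) := by
  have hp : 2 ^ (h + 1) = 2 * 2 ^ h := by ring
  have hp0 : 0 < 2 ^ h := by positivity
  have h1 : (cl.map (fnum (2 ^ (h + 1)) N Q (Q ^ 5) u)).sum ≤
      cl.length * full (2 ^ (h + 1)) (Q ^ 5) := by
    clear hlen
    induction cl with
    | nil => simp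
    | cons l cl ih =>
      have h2 := ih fun l' hl' => hl l' (List.mem_cons_of_mem _ hl')
      have h3 := fnum_le (X := 2 ^ (h + 1)) (by omega) hN hu (hl l List.mem_cons_self)
      simp only [List.map_cons, List.sum_cons, List.length_cons]
      rw [add_mul, one_mul]
      omega
  have h2 : cnum h (2 ^ (h + 1)) N Q (Q ^ 5) u cl ≤ 2 ^ h * full (2 ^ (h + 1)) (Q ^ 5) := by
    unfold cnum
    have h3 : 2 ^ h = cl.length + (2 ^ h - cl.length) := by omega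
    conv_rhs => rw [h3, add_mul]
    omega
  refine h2.trans_lt ?_
  unfold full
  rw [num_smul]
  exact num_lt _ fun _ => by omega

theorem wins_lt {X R : ℕ} (hX : 0 < X) (l : List ℕ) (hl : ∀ v ∈ l, v < X ^ R) :
    wins X R l < X ^ (R * l.length) := by
  induction l with
  | nil => simp [wins]
  | cons v l ih =>
    have h1 := ih fun v' hv' => hl v' (List.mem_cons_of_mem _ hv')
    have h2 := hl v List.mem_cons_self
    have h3 : wins X R (v :: l) = v + X ^ R * wins X R l := rfl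
    rw [h3, List.length_cons, mul_add, mul_one, pow_add, mul_comm (X ^ (R * l.length))]
    have h4 : 0 < X ^ R := by positivity
    nlinarith

theorem totV_lt {h N Q u : ℕ} (hN : 0 < N) (hu : u < N) (hNQ : 2 * N < Q) (C : List (List Lit))
    (hl : ∀ cl ∈ C, ∀ l ∈ cl, Big N Q l) (hlen : ∀ cl ∈ C, cl.length ≤ 2 ^ h) :
    totV h C N Q u < (2 ^ (h + 1)) ^ (Q ^ 5 * (C.length + 1)) := by
  have hX2 : 2 ≤ 2 ^ (h + 1) := by
    calc 2 = 2 ^ 1 := rfl
      _ ≤ 2 ^ (h + 1) := Nat.pow_le_pow_right (by norm_num) (by omega)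
  have hQ5 : Q ≤ Q ^ 5 := Nat.le_self_pow (by norm_num) Q
  have hu' : u < (2 ^ (h + 1)) ^ (Q ^ 5) := by
    calc u < Q ^ 5 := by omega
      _ < (2 ^ (h + 1)) ^ (Q ^ 5) := Nat.lt_pow_self (by omega)
  have h1 := wins_lt (X := 2 ^ (h + 1)) (R := Q ^ 5) (by positivity)
    (u :: C.map (cnum h (2 ^ (h + 1)) N Q (Q ^ 5) u)) (by
      intro v hv
      rcases List.mem_cons.1 hv with rfl | hv
      · exact hu'
      · obtain ⟨cl, hcl, rfl⟩ := List.mem_map.1 hv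
        exact cnum_lt hN hu cl (hl cl hcl) (hlen cl hcl))
  rw [List.length_cons, List.length_map] at h1
  exact h1

theorem totM_lt {h N Q : ℕ} (hN : 0 < N) (hNQ : 2 * N < Q) (C : List (List Lit)) :
    totM h C N Q < (2 ^ (h + 1)) ^ (Q ^ 5 * (C.length + 1)) := by
  classical
  have hp : 2 ^ (h + 1) = 2 * 2 ^ h := by ring
  have hp0 : 0 < 2 ^ h := by positivity
  have h1 := wins_lt (X := 2 ^ (h + 1)) (R := Q ^ 5) (by positivity)
    (num (2 ^ (h + 1)) (Q ^ 5) (fun _ => 2 ^ (h + 1) - 2) ::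
      C.map (fun _ => 2 ^ h * comb (2 ^ (h + 1)) N Q)) (by
      intro v hv
      rcases List.mem_cons.1 hv with rfl | hv
      · exact num_lt _ fun _ => by omega
      · obtain ⟨cl, hcl, rfl⟩ := List.mem_map.1 hv
        rw [comb_chi (by omega), chi_eq_num (kset_lt hN (by omega)), num_smul]
        apply num_lt
        intro x
        split_ifs <;> omega)
  rw [List.length_cons, List.length_map] at h1
  exact h1

end Pool.Agent.Run7.h955.OV
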