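import Pool.Agent.Run7.h955.OV.Num

/-!
# From clauses to two inequalities between exponential terms in two unknowns, second part
-/

set_option autoImplicit false

namespace Pool.Agent.Run7.h955.OV

open Finset

/-- `k` is large with respect to the literal family -/
def Lg (k : ℕ) (p : Lit × ℕ) : Prop := 4 * (p.1.a + p.1.b + p.1.c + p.1.e + p.2) + 4 ≤ k

theorem rep_Qsub {k c : ℕ} (j : ℕ) (hj : j ≠ 0) (hc : c ≤ k) :
    Rep (fun n u _ => ((Qfn k n u ^ j - c : ℕ) : ℤ)) := by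
  refine ((mul_Qpow k j).rep.sub (Rep.const (c : ℤ))).congr fun n u _ => ?_
  have h1 : c ≤ Qfn k n u ^ j := by
    refine le_trans ?_ (Nat.le_self_pow hj _)
    unfold Qfn
    calc c ≤ k + n + u := by omega
      _ ≤ 2 ^ (k + n + u) := (Nat.lt_pow_self (by norm_num)).le
  push_cast [Nat.cast_sub h1]
  ring

theorem Qsub_pos {k c : ℕ} (j : ℕ) (hj : j ≠ 0) (hc : c ≤ k) (n u : ℕ) : 0 < Qfn k n u ^ j - c := by
  have h1 : Qfn k n u ≤ Qfn k n u ^ j := Nat.le_self_pow hj _
  have h2 : k + n + u < Qfn k n u := Nat.lt_pow_self (by norm_num)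
  omega

theorem fr_arr (h : ℕ) {k : ℕ} {p : Lit × ℕ} (hk : Lg k p) :
    Fr (fun n u => (arr (2 ^ (h + 1)) (Nfn n u) (Qfn k n u) u (mk p n) : ℤ)) := by
  unfold Lg at hk
  have hQe : ∀ n u : ℕ, p.1.e + p.2 * n ≤ Qfn k n u := by
    intro n u
    have := big_mk hk n u
    unfold Big mk at this
    simp only at this
    omega
  have re : Rep (fun n u _ => ((Qfn k n u - (p.1.e + p.2 * n) : ℕ) : ℤ)) := by
    refine (((mul_Qfn k).rep.sub (Rep.const (p.1.e : ℤ))).sub
      ((Mul.const (p.2 : ℤ)) _ Rep.varN)).congr fun n u _ => ?_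
    push_cast [Nat.cast_sub (hQe n u)]
    ring
  have g1 := FrM.gs h mul_Nfn (rep_Qsub (k := k) (c := p.1.a) 1 one_ne_zero (by omega))
    (Qsub_pos (k := k) (c := p.1.a) 1 one_ne_zero (by omega))
  have g2 := FrM.gs h mul_Nfn (rep_Qsub (k := k) (c := p.1.b) 2 two_ne_zero (by omega))
    (Qsub_pos (k := k) (c := p.1.b) 2 two_ne_zero (by omega))
  have g3 := FrM.gs h mul_Nfn (rep_Qsub (k := k) (c := p.1.c) 3 three_ne_zero (by omega))
    (Qsub_pos (k := k) (c := p.1.c) 3 three_ne_zero (by omega))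
  have g0 := FrM.ofMul (F := fun n u => (2 ^ (h + 1)) ^ (Qfn k n u - (p.1.e + p.2 * n)))
    (Mul.powN (h + 1) re)
  have gu : Fr (fun _ u => (u : ℤ)) := Fr.ofRep Rep.varU
  refine (gu.mulM (((g0.mul g1).mul g2).mul g3)).congr fun n u => ?_
  unfold arr mk
  simp only [pow_one]
  push_cast
  ring

theorem fr_full (h k : ℕ) : FrM (fun n u => (full (2 ^ (h + 1)) (Qfn k n u ^ 5) : ℤ)) :=
  FrM.full h (mul_Qpow k 5).rep

theorem fr_fnum (h : ℕ) {k : ℕ} {p : Lit × ℕ} (hk : Lg k p) :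
    Fr (fun n u => (fnum (2 ^ (h + 1)) (Nfn n u) (Qfn k n u) (Qfn k n u ^ 5) u (mk p n) : ℤ)) := by
  by_cases hp : p.1.pos = true
  · refine ((fr_full h k).toFr.sub (fr_arr h hk)).congr fun n u => ?_
    have hX2 : 2 ≤ 2 ^ (h + 1) := by
      calc 2 = 2 ^ 1 := rfl
        _ ≤ 2 ^ (h + 1) := Nat.pow_le_pow_right (by norm_num) (by omega)
    have h1 : arr (2 ^ (h + 1)) (Nfn n u) (Qfn k n u) u (mk p n) ≤
        full (2 ^ (h + 1)) (Qfn k n u ^ 5) :=
      arr_le_full hX2 (by have := u_lt_Nfn n u; omega) (by have := u_lt_Nfn n u; omega)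
        (big_mk hk n u)
    unfold fnum
    rw [if_pos (by exact hp)]
    push_cast [Nat.cast_sub h1]
    ring
  · refine (fr_arr h hk).congr fun n u => ?_
    unfold fnum
    rw [if_neg (by exact hp)]

theorem fr_cnum (h : ℕ) {k : ℕ} (cl : List (Lit × ℕ)) (hk : ∀ p ∈ cl, Lg k p) :
    Fr (fun n u => (cnum h (2 ^ (h + 1)) (Nfn n u) (Qfn k n u) (Qfn k n u ^ 5) u
      (cl.map (fun p => mk p n)) : ℤ)) := by
  have h1 : Fr (fun n u => (((cl.map (fun p => mk p n)).map
      (fnum (2 ^ (h + 1)) (Nfn n u) (Qfn k n u) (Qfn k n u ^ 5) u)).sum : ℤ)) := by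
    induction cl with
    | nil => exact (FrM.const 0).toFr.congr fun n u => by simp
    | cons p cl ih =>
      refine ((fr_fnum h (hk p List.mem_cons_self)).add
        (ih fun q hq => hk q (List.mem_cons_of_mem _ hq))).congr fun n u => ?_
      simp only [List.map_cons, List.sum_cons]
      push_cast
      ring
  refine (h1.add ((fr_full h k).toFr.mulM
    (FrM.const ((2 ^ h - cl.length : ℕ) : ℤ)))).congr fun n u => ?_
  unfold cnum
  rw [List.length_map]
  push_cast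
  ring

theorem fr_winsV (h : ℕ) {k : ℕ} (C : List (List (Lit × ℕ))) (hk : ∀ cl ∈ C, ∀ p ∈ cl, Lg k p) :
    Fr (fun n u => (wins (2 ^ (h + 1)) (Qfn k n u ^ 5)
      ((C.map (fun cl => cl.map (fun p => mk p n))).map
        (cnum h (2 ^ (h + 1)) (Nfn n u) (Qfn k n u) (Qfn k n u ^ 5) u)) : ℤ)) := by
  induction C with
  | nil => exact (FrM.const 0).toFr.congr fun n u => by simp [wins]
  | cons cl C ih =>
    have hX := FrM.ofMul (F := fun n u => (2 ^ (h + 1)) ^ (Qfn k n u ^ 5))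
      (Mul.powN (h + 1) (mul_Qpow k 5).rep)
    refine ((fr_cnum h cl (hk cl List.mem_cons_self)).add
      ((ih fun c hc => hk c (List.mem_cons_of_mem _ hc)).mulM hX)).congr fun n u => ?_
    simp only [List.map_cons, wins, List.foldr_cons]
    push_cast
    ring

theorem fr_comb (h k : ℕ) :
    FrM (fun n u => (comb (2 ^ (h + 1)) (Nfn n u) (Qfn k n u) : ℤ)) := by
  have hpos : ∀ j : ℕ, ∀ n u, 0 < Qfn k n u ^ j := by
    intro j n u
    unfold Qfn
    positivity
  have g1 := FrM.gs h mul_Nfn (mul_Qpow k 1).rep (hpos 1)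
  have g2 := FrM.gs h mul_Nfn (mul_Qpow k 2).rep (hpos 2)
  have g3 := FrM.gs h mul_Nfn (mul_Qpow k 3).rep (hpos 3)
  have g0 := FrM.ofMul (F := fun n u => (2 ^ (h + 1)) ^ (Qfn k n u)) (Mul.powN (h + 1) (mul_Qfn k).rep)
  refine (((g0.mul g1).mul g2).mul g3).congr fun n u => ?_
  unfold comb
  simp only [pow_one]
  push_cast
  ring

theorem fr_winsM (h k : ℕ) (C : List (List (Lit × ℕ))) :
    FrM (fun n u => (wins (2 ^ (h + 1)) (Qfn k n u ^ 5)
      ((C.map (fun cl => cl.map (fun p => mk p n))).map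
        (fun _ => 2 ^ h * comb (2 ^ (h + 1)) (Nfn n u) (Qfn k n u))) : ℤ)) := by
  induction C with
  | nil => exact (FrM.const 0).congr fun n u => by simp [wins]
  | cons cl C ih =>
    have hX := FrM.ofMul (F := fun n u => (2 ^ (h + 1)) ^ (Qfn k n u ^ 5))
      (Mul.powN (h + 1) (mul_Qpow k 5).rep)
    refine (((FrM.const (2 ^ h)).mul (fr_comb h k)).add (hX.mul ih)).congr fun n u => ?_
    simp only [List.map_cons, wins, List.foldr_cons]
    push_cast
    ring

/-- the clause list at `n` -/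
def Cn (C : List (List (Lit × ℕ))) (n : ℕ) : List (List Lit) := C.map (fun cl => cl.map (fun p => mk p n))

theorem fr_totV (h : ℕ) {k : ℕ} (C : List (List (Lit × ℕ))) (hk : ∀ cl ∈ C, ∀ p ∈ cl, Lg k p) :
    Fr (fun n u => (totV h (Cn C n) (Nfn n u) (Qfn k n u) u : ℤ)) := by
  have hX := FrM.ofMul (F := fun n u => (2 ^ (h + 1)) ^ (Qfn k n u ^ 5))
    (Mul.powN (h + 1) (mul_Qpow k 5).rep)
  have gu : Fr (fun _ u => (u : ℤ)) := Fr.ofRep Rep.varU
  refine (gu.add ((fr_winsV h C hk).mulM hX)).congr fun n u => ?_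
  unfold totV Cn
  push_cast
  ring

theorem fr_totM (h k : ℕ) (C : List (List (Lit × ℕ))) :
    FrM (fun n u => (totM h (Cn C n) (Nfn n u) (Qfn k n u) : ℤ)) := by
  have hX := FrM.ofMul (F := fun n u => (2 ^ (h + 1)) ^ (Qfn k n u ^ 5))
    (Mul.powN (h + 1) (mul_Qpow k 5).rep)
  refine (((FrM.const ((2 ^ (h + 1) - 2 : ℕ) : ℤ)).mul (fr_full h k)).add
    (hX.mul (fr_winsM h k C))).congr fun n u => ?_
  unfold totM Cn full
  have h1 : num (2 ^ (h + 1)) (Qfn k n u ^ 5) (fun _ => 2 ^ (h + 1) - 2) =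
    (2 ^ (h + 1) - 2) * num (2 ^ (h + 1)) (Qfn k n u ^ 5) (fun _ => 1) := by
    rw [num_smul]
    simp
  rw [h1]
  push_cast
  ring

theorem exists_bound {α : Type} (f : α → ℕ) (l : List α) : ∃ B, ∀ x ∈ l, f x ≤ B := by
  induction l with
  | nil => exact ⟨0, by simp⟩
  | cons x l ih =>
    obtain ⟨B, hB⟩ := ih
    refine ⟨B + f x, ?_⟩
    intro y hy
    rcases List.mem_cons.1 hy with rfl | hy
    · omega
    · have := hB y hy
      omega

/-- **the two inequalities** -/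
theorem num_main (C0 : List (List Lit)) (r s : ℕ) :
    ∃ R1 R2 : ℕ → ℕ → ℤ → ℤ, Rep R1 ∧ Rep R2 ∧
      ∀ n, (∃ U : Finset ℕ, Sat C0 U ∧ r * n + s ∈ U) ↔
        ∃ (u : ℕ) (w : ℤ), 0 ≤ R1 n u w ∧ 0 ≤ R2 n u w := by
  classical
  -- the clauses
  let C : List (List (Lit × ℕ)) :=
    C0.map (fun cl => cl.map (fun l => (l, 0))) ++ [[((⟨true, 0, 0, 0, s⟩ : Lit), r)]]
  have hCn : ∀ n, Cn C n = C0 ++ [[(⟨true, 0, 0, 0, s + r * n⟩ : Lit)]] := by
    intro n
    have h1 : ∀ l : Lit, mk (l, 0) n = l := by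
      intro l
      unfold mk
      simp
    unfold Cn
    simp only [C, List.map_append, List.map_map, List.map_cons, List.map_nil]
    congr 1
    conv_rhs => rw [← List.map_id C0]
    apply List.map_congr_left
    intro cl _
    simp only [Function.comp, List.map_map, id]
    conv_rhs => rw [← List.map_id cl]
    apply List.map_congr_left
    intro l _
    exact h1 l
  have hSat : ∀ n (U : Finset ℕ), Sat (Cn C n) U ↔ (Sat C0 U ∧ r * n + s ∈ U) := by
    intro n U
    rw [hCn]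
    unfold Sat
    constructor
    · intro H
      refine ⟨fun cl hcl => H cl (List.mem_append_left _ hcl), ?_⟩
      obtain ⟨l, hl, h2⟩ := H _ (List.mem_append_right _ List.mem_cons_self) 0 0 0
      rw [List.mem_singleton] at hl
      subst hl
      unfold Lit.ok Lit.pt at h2
      simp only [zero_mul, zero_add, iff_true] at h2
      rwa [add_comm] at h2
    · rintro ⟨H1, H2⟩ cl hcl i j k
      rcases List.mem_append.1 hcl with hcl | hcl
      · exact H1 cl hcl i j k
      · rw [List.mem_singleton] at hcl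
        subst hcl
        refine ⟨_, List.mem_singleton.2 rfl, ?_⟩
        unfold Lit.ok Lit.pt
        simp only [zero_mul, zero_add, iff_true]
        rwa [add_comm]
  -- the bounds
  obtain ⟨B1, hB1⟩ := exists_bound (fun p : Lit × ℕ =>
    4 * (p.1.a + p.1.b + p.1.c + p.1.e + p.2) + 4) C.flatten
  obtain ⟨h, hh⟩ := exists_bound (fun cl : List (Lit × ℕ) => cl.length) C
  let k := B1 + 4
  have hk : ∀ cl ∈ C, ∀ p ∈ cl, Lg k p := by
    intro cl hcl p hp
    have := hB1 p (List.mem_flatten.2 ⟨cl, hcl, hp⟩)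
    unfold Lg
    omega
  have hbig : ∀ n u, ∀ cl ∈ Cn C n, ∀ l ∈ cl, Big (Nfn n u) (Qfn k n u) l := by
    intro n u cl hcl l hl
    obtain ⟨cl', hcl', rfl⟩ := List.mem_map.1 hcl
    obtain ⟨p, hp, rfl⟩ := List.mem_map.1 hl
    exact big_mk (hk cl' hcl' p hp) n u
  have hlen : ∀ n, ∀ cl ∈ Cn C n, cl.length ≤ 2 ^ h := by
    intro n cl hcl
    obtain ⟨cl', hcl', rfl⟩ := List.mem_map.1 hcl
    rw [List.length_map]
    exact (hh cl' hcl').trans (Nat.lt_pow_self (by norm_num)).le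
  have hN0 : ∀ n u, 0 < Nfn n u := fun n u => by have := u_lt_Nfn n u; omega
  have huN : ∀ n u, u < Nfn n u := fun n u => by have := u_lt_Nfn n u; omega
  have hNQ : ∀ n u, 2 * Nfn n u < Qfn k n u := fun n u => Nfn_lt_Qfn (by omega) n u
  -- the numbers
  let V : ℕ → ℕ → ℕ := fun n u => totV h (Cn C n) (Nfn n u) (Qfn k n u) u
  let M : ℕ → ℕ → ℕ := fun n u => totM h (Cn C n) (Nfn n u) (Qfn k n u)
  have hVM : ∀ n u, V n u &&& M n u = 0 ↔
      ∃ U : Finset ℕ, u = chi (2 ^ (h + 1)) U ∧ Sat (Cn C n) U :=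
    fun n u => tot_iff (N := Nfn n u) rfl (by have := hNQ n u; omega) (Cn C n) (hbig n u) (hlen n)
  obtain ⟨D1, hD1, mD1, rV⟩ := fr_totV h C hk
  obtain ⟨D2, hD2, mD2, mM⟩ := fr_totM h k C
  let D : ℕ → ℕ → ℤ := fun n u => D1 n u * D2 n u
  have hD : ∀ n u, 0 < D n u := fun n u => mul_pos (hD1 n u) (hD2 n u)
  have mD : Mul (fun n u _ => D n u) := mD1.mul mD2
  have rVD : Rep (fun n u _ => (V n u : ℤ) * D n u) :=
    (mD2 _ rV).congr fun n u _ => by simp only [V, D]; ring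
  have rMD : Rep (fun n u _ => (M n u : ℤ) * D n u) :=
    (mM.mul mD1).rep.congr fun n u _ => by simp only [M, D]; ring
  let g : ℕ → ℕ → ℕ := fun n u => (h + 1) * (Qfn k n u ^ 5 * (C.length + 1)) + 1
  have rg : Rep (fun n u _ => (g n u : ℤ)) := by
    refine ((((Mul.const (((h + 1) * (C.length + 1) : ℕ) : ℤ)) _ (mul_Qpow k 5).rep)).add
      Rep.one).congr fun n u _ => ?_
    simp only [g]
    push_cast
    ring
  have hA : ∀ n u, V n u + M n u < 2 ^ g n u := by
    intro n u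
    have h1 : V n u < (2 ^ (h + 1)) ^ (Qfn k n u ^ 5 * ((Cn C n).length + 1)) :=
      totV_lt (hN0 n u) (huN n u) (hNQ n u) (Cn C n) (hbig n u) (hlen n)
    have h2 : M n u < (2 ^ (h + 1)) ^ (Qfn k n u ^ 5 * ((Cn C n).length + 1)) :=
      totM_lt (hN0 n u) (hNQ n u) (Cn C n)
    have h3 : (Cn C n).length = C.length := by simp [Cn]
    rw [h3, ← pow_mul] at h1 h2
    simp only [g]
    rw [pow_succ]
    omega
  let Dn : ℕ → ℕ → ℕ := fun n u => (D n u).toNat
  have hDn : ∀ n u, (Dn n u : ℤ) = D n u := fun n u => Int.toNat_of_nonneg (hD n u).le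
  have hDn1 : ∀ n u, 1 ≤ Dn n u := by
    intro n u
    have := hD n u
    have := hDn n u
    omega
  let z : ℕ → ℕ → ℕ := fun n u => Dn n u * 2 ^ g n u
  let e : ℕ → ℕ → ℕ := fun n u => Dn n u * 2 ^ (2 * g n u + 1)
  have m2g : Mul (fun n u _ => (2 : ℤ) ^ g n u) := Mul.twoN rg
  have m2f : Mul (fun n u _ => (2 : ℤ) ^ (2 * g n u + 1)) := by
    refine Mul.twoN (T := fun n u => 2 * g n u + 1) ?_
    exact (((Mul.const 2) _ rg).add Rep.one).congr fun n u _ => by push_cast; ring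
  have rz : Rep (fun n u _ => (z n u : ℤ)) :=
    (mD.mul m2g).rep.congr fun n u _ => by simp only [z]; push_cast; rw [hDn]
  have re : Rep (fun n u _ => (e n u : ℤ)) :=
    (mD.mul m2f).rep.congr fun n u _ => by simp only [e]; push_cast; rw [hDn]
  have hze : ∀ n u, z n u ≤ e n u := by
    intro n u
    simp only [z, e]
    apply Nat.mul_le_mul_left
    exact Nat.pow_le_pow_right (by norm_num) (by omega)
  have hAz : ∀ n u, V n u + M n u < z n u := by
    intro n u
    refine (hA n u).trans_le ?_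
    simp only [z]
    exact Nat.le_mul_of_pos_left _ (hDn1 n u)
  have hbe : ∀ n u, (z n u + 1) * (V n u + M n u + 1) + 1 < e n u := by
    intro n u
    have h1 := hA n u
    have h2 := hDn1 n u
    have h3 : 2 ^ (2 * g n u + 1) = 2 * (2 ^ g n u * 2 ^ g n u) := by
      rw [pow_succ, two_mul, pow_add]; ring
    have h4 : 4 ≤ 2 ^ g n u := by
      have hg2 : 2 ≤ g n u := by
        simp only [g]
        have : 0 < Qfn k n u ^ 5 := by unfold Qfn; positivity
        have : 0 < (h + 1) * (Qfn k n u ^ 5 * (C.length + 1)) := by positivity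
        omega
      calc 4 = 2 ^ 2 := rfl
        _ ≤ 2 ^ g n u := Nat.pow_le_pow_right (by norm_num) hg2
    simp only [z, e]
    rw [h3]
    generalize 2 ^ g n u = G at *
    generalize Dn n u = d at *
    have h5 : (d * G + 1) * (V n u + M n u + 1) ≤ (d * G + 1) * G := Nat.mul_le_mul_left _ (by omega)
    have h6 : (d * G + 1) * G + 1 < d * (2 * (G * G)) := by
      have h7 : G + 1 < G * G := by nlinarith
      have h8 : G + 1 < d * (G * G) := lt_of_lt_of_le h7 (Nat.le_mul_of_pos_left _ (by omega))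
      have h9 : (d * G + 1) * G + 1 = d * (G * G) + (G + 1) := by ring
      have h10 : d * (2 * (G * G)) = d * (G * G) + d * (G * G) := by ring
      omega
    omega
  have hsub : ∀ n u, z n u * M n u ≤ e n u * (V n u + M n u + 1) :=
    fun n u => Nat.mul_le_mul (hze n u) (by omega)
  let E : ℕ → ℕ → ℕ := fun n u => e n u * (V n u + M n u + 1) - z n u * M n u
  have rE : Rep (fun n u _ => (E n u : ℤ)) := by
    refine ((m2f _ ((rVD.add rMD).add mD.rep)).sub (m2g _ rMD)).congr fun n u _ => ?_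
    simp only [E]
    rw [Nat.cast_sub (hsub n u)]
    simp only [z, e]
    push_cast
    rw [hDn]
    ring
  have mP : Mul (fun n u _ => (2 : ℤ) ^ e n u - 2 ^ z n u - 1) :=
    ((Mul.twoN re).sub (Mul.twoN rz)).sub Mul.one
  let R1 : ℕ → ℕ → ℤ → ℤ := fun n u w =>
    (2 : ℤ) ^ E n u - (2 * w + 1) * (2 ^ e n u - 2 ^ z n u - 1)
  have rR1 : Rep R1 := by
    have h1 : Rep (fun _ _ w => 2 * w + 1) :=
      ((((Mul.const 2) _ Rep.varW)).add Rep.one).congr fun _ _ _ => by ring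
    exact ((Mul.twoN rE).rep.sub (mP _ h1)).congr fun n u w => by simp only [R1]
  have rR2 : Rep (fun n u w => (2 ^ e n u - 2 ^ z n u - 1) - R1 n u w - 1) :=
    ((mP.rep.sub rR1).sub Rep.one).congr fun n u w => by simp only
  refine ⟨R1, _, rR1, rR2, ?_⟩
  intro n
  have key : ∀ u : ℕ, (∃ w : ℤ, 0 ≤ R1 n u w ∧ 0 ≤ (2 ^ e n u - 2 ^ z n u - 1) - R1 n u w - 1) ↔
      V n u &&& M n u = 0 := by
    intro u
    rw [← Pool.Agent.Run7.h882.OV.t_Odd (V n u) (M n u),
      ← Pool.Agent.Run7.h882.OV.t_Quot (V n u + M n u) (M n u) (z n u) (e n u) (by omega)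
        (hAz n u) (hbe n u)]
    constructor
    · rintro ⟨w, h1, h2⟩
      exact ⟨w, h1, by simp only [R1, E] at h2 ⊢; linarith⟩
    · rintro ⟨w, h1, h2⟩
      refine ⟨w, h1, ?_⟩
      simp only [R1, E]
      linarith
  constructor
  · rintro ⟨U, hU⟩
    refine ⟨chi (2 ^ (h + 1)) U, ?_⟩
    rw [key, hVM]
    exact ⟨U, rfl, (hSat n U).2 hU⟩
  · rintro ⟨u, hu⟩
    rw [key, hVM] at hu
    obtain ⟨U, _, h2⟩ := hu
    exact ⟨U, (hSat n U).1 h2⟩

end Pool.Agent.Run7.h955.OV
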