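import Pool.Agent.Run7.h955.OV.Arr

/-!
# One bitwise condition for all clauses
-/

set_option autoImplicit false

namespace Pool.Agent.Run7.h955.OV

open Finset

def totV (h : ℕ) (C : List (List Lit)) (N Q u : ℕ) : ℕ :=
  u + (2 ^ (h + 1)) ^ (Q ^ 5) *
    wins (2 ^ (h + 1)) (Q ^ 5) (C.map (cnum h (2 ^ (h + 1)) N Q (Q ^ 5) u))

def totM (h : ℕ) (C : List (List Lit)) (N Q : ℕ) : ℕ :=
  num (2 ^ (h + 1)) (Q ^ 5) (fun _ => 2 ^ (h + 1) - 2) + (2 ^ (h + 1)) ^ (Q ^ 5) *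
    wins (2 ^ (h + 1)) (Q ^ 5) (C.map (fun _ => 2 ^ h * comb (2 ^ (h + 1)) N Q))

theorem min_ok {N : ℕ} {U : Finset ℕ} (hU : ∀ m ∈ U, m + 1 < N) (l : Lit) (i j k : ℕ) :
    l.ok U (min i (N - 1)) (min j (N - 1)) (min k (N - 1)) ↔ l.ok U i j k := by
  unfold Lit.ok
  have key : l.pt (min i (N - 1)) (min j (N - 1)) (min k (N - 1)) ∈ U ↔ l.pt i j k ∈ U := by
    by_cases H : (l.a = 0 ∨ i < N) ∧ (l.b = 0 ∨ j < N) ∧ (l.c = 0 ∨ k < N)
    · obtain ⟨h1, h2, h3⟩ := H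
      have e1 : l.a * min i (N - 1) = l.a * i := by
        rcases h1 with h | h
        · simp [h]
        · rw [min_eq_left (by omega)]
      have e2 : l.b * min j (N - 1) = l.b * j := by
        rcases h2 with h | h
        · simp [h]
        · rw [min_eq_left (by omega)]
      have e3 : l.c * min k (N - 1) = l.c * k := by
        rcases h3 with h | h
        · simp [h]
        · rw [min_eq_left (by omega)]
      unfold Lit.pt
      rw [e1, e2, e3]
    · have big : ∀ x : ℕ, N ≤ x + 1 → x ∉ U := by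
        intro x hx hxU
        have := hU x hxU
        omega
      have mulge : ∀ {a x y : ℕ}, a ≠ 0 → y ≤ x → y ≤ a * x := by
        intro a x y ha hxy
        calc y ≤ x := hxy
          _ = 1 * x := (one_mul x).symm
          _ ≤ a * x := Nat.mul_le_mul_right _ (Nat.one_le_iff_ne_zero.2 ha)
      have h1 : N ≤ l.pt i j k + 1 ∧ N ≤ l.pt (min i (N - 1)) (min j (N - 1)) (min k (N - 1)) + 1 := by
        unfold Lit.pt
        by_cases h1 : l.a = 0 ∨ i < N
        · by_cases h2 : l.b = 0 ∨ j < N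
          · have h3 : ¬ (l.c = 0 ∨ k < N) := fun h3 => H ⟨h1, h2, h3⟩
            push Not at h3
            have a1 := mulge h3.1 h3.2
            have a2 := mulge h3.1 (show N - 1 ≤ min k (N - 1) by omega)
            omega
          · push Not at h2
            have a1 := mulge h2.1 h2.2
            have a2 := mulge h2.1 (show N - 1 ≤ min j (N - 1) by omega)
            omega
        · push Not at h1
          have a1 := mulge h1.1 h1.2
          have a2 := mulge h1.1 (show N - 1 ≤ min i (N - 1) by omega)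
          omega
      exact ⟨fun h => absurd h (big _ h1.2), fun h => absurd h (big _ h1.1)⟩
  rw [key]

theorem sat_iff {N : ℕ} (hN : 0 < N) {U : Finset ℕ} (hU : ∀ m ∈ U, m + 1 < N)
    (C : List (List Lit)) :
    (∀ cl ∈ C, ∀ i < N, ∀ j < N, ∀ k < N, ∃ l ∈ cl, l.ok U i j k) ↔ Sat C U := by
  constructor
  · intro H cl hcl i j k
    obtain ⟨l, hl, h1⟩ := H cl hcl (min i (N - 1)) (by omega) (min j (N - 1)) (by omega)
      (min k (N - 1)) (by omega)
    exact ⟨l, hl, (min_ok hU l i j k).1 h1⟩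
  · intro H cl hcl i _ j _ k _
    exact H cl hcl i j k

theorem wins_iff {h N Q : ℕ} (hN : 0 < N) (hNQ : N < Q) {U : Finset ℕ} (hU : ∀ m ∈ U, m < N)
    (C : List (List Lit)) (hl : ∀ cl ∈ C, ∀ l ∈ cl, Big N Q l) (hlen : ∀ cl ∈ C, cl.length ≤ 2 ^ h) :
    wins (2 ^ (h + 1)) (Q ^ 5) (C.map (cnum h (2 ^ (h + 1)) N Q (Q ^ 5) (chi (2 ^ (h + 1)) U))) &&&
      wins (2 ^ (h + 1)) (Q ^ 5) (C.map (fun _ => 2 ^ h * comb (2 ^ (h + 1)) N Q)) = 0 ↔
    ∀ cl ∈ C, ∀ i < N, ∀ j < N, ∀ k < N, ∃ l ∈ cl, l.ok U i j k := by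
  classical
  induction C with
  | nil => simp [wins]
  | cons cl C ih =>
    have e1 : wins (2 ^ (h + 1)) (Q ^ 5) ((cl :: C).map
        (cnum h (2 ^ (h + 1)) N Q (Q ^ 5) (chi (2 ^ (h + 1)) U))) =
        cnum h (2 ^ (h + 1)) N Q (Q ^ 5) (chi (2 ^ (h + 1)) U) cl + 2 ^ ((h + 1) * Q ^ 5) *
          wins (2 ^ (h + 1)) (Q ^ 5)
            (C.map (cnum h (2 ^ (h + 1)) N Q (Q ^ 5) (chi (2 ^ (h + 1)) U))) := by
      rw [pow_mul]
      rfl
    have e2 : wins (2 ^ (h + 1)) (Q ^ 5) ((cl :: C).map (fun _ => 2 ^ h * comb (2 ^ (h + 1)) N Q)) =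
        2 ^ h * comb (2 ^ (h + 1)) N Q + 2 ^ ((h + 1) * Q ^ 5) *
          wins (2 ^ (h + 1)) (Q ^ 5) (C.map (fun _ => 2 ^ h * comb (2 ^ (h + 1)) N Q)) := by
      rw [pow_mul]
      rfl
    have hp : 2 ^ (h + 1) = 2 * 2 ^ h := by ring
    have hp0 : 0 < 2 ^ h := by positivity
    have b1 : cnum h (2 ^ (h + 1)) N Q (Q ^ 5) (chi (2 ^ (h + 1)) U) cl < 2 ^ ((h + 1) * Q ^ 5) := by
      rw [cnum_chi hN hU cl (hl cl List.mem_cons_self), pow_mul]
      apply num_lt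
      intro x
      have := sum_fd_le N Q U cl x
      have := hlen cl List.mem_cons_self
      omega
    have b2 : 2 ^ h * comb (2 ^ (h + 1)) N Q < 2 ^ ((h + 1) * Q ^ 5) := by
      rw [comb_chi hNQ, chi_eq_num (kset_lt hN hNQ), num_smul, pow_mul]
      apply num_lt
      intro x
      split_ifs <;> omega
    rw [e1, e2, win b1 b2, ih (fun c hc => hl c (List.mem_cons_of_mem _ hc))
      (fun c hc => hlen c (List.mem_cons_of_mem _ hc)),
      clause_iff hN hNQ hU cl (hl cl List.mem_cons_self) (hlen cl List.mem_cons_self)]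
    simp only [List.mem_cons, forall_eq_or_imp]

/-- **all clauses in one condition** -/
theorem tot_iff {h N Q u : ℕ} (hN : N = 2 ^ (u + 1)) (hNQ : N < Q)
    (C : List (List Lit)) (hl : ∀ cl ∈ C, ∀ l ∈ cl, Big N Q l) (hlen : ∀ cl ∈ C, cl.length ≤ 2 ^ h) :
    totV h C N Q u &&& totM h C N Q = 0 ↔
      ∃ U : Finset ℕ, u = chi (2 ^ (h + 1)) U ∧ Sat C U := by
  have hN0 : 0 < N := by rw [hN]; positivity
  have huN : u + 1 < N := by
    rw [hN]
    exact Nat.lt_pow_self (by norm_num)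
  have hX2 : 2 ≤ 2 ^ (h + 1) := by
    calc 2 = 2 ^ 1 := rfl
      _ ≤ 2 ^ (h + 1) := Nat.pow_le_pow_right (by norm_num) (by omega)
  have hQ5 : Q ≤ Q ^ 5 := Nat.le_self_pow (by norm_num) Q
  have hu : u < (2 ^ (h + 1)) ^ (Q ^ 5) := by
    calc u < Q ^ 5 := by omega
      _ < (2 ^ (h + 1)) ^ (Q ^ 5) := Nat.lt_pow_self (by omega)
  have hu' : u < 2 ^ ((h + 1) * Q ^ 5) := by rwa [pow_mul]
  have hm : num (2 ^ (h + 1)) (Q ^ 5) (fun _ => 2 ^ (h + 1) - 2) < 2 ^ ((h + 1) * Q ^ 5) := by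
    rw [pow_mul]
    exact num_lt _ fun _ => by omega
  have e : totV h C N Q u &&& totM h C N Q = 0 ↔
      (u &&& num (2 ^ (h + 1)) (Q ^ 5) (fun _ => 2 ^ (h + 1) - 2) = 0 ∧
      wins (2 ^ (h + 1)) (Q ^ 5) (C.map (cnum h (2 ^ (h + 1)) N Q (Q ^ 5) u)) &&&
      wins (2 ^ (h + 1)) (Q ^ 5) (C.map (fun _ => 2 ^ h * comb (2 ^ (h + 1)) N Q)) = 0) := by
    unfold totV totM
    rw [← pow_mul]
    exact win hu' hm
  rw [e]
  constructor
  · rintro ⟨h1, h2⟩
    obtain ⟨U, hU⟩ := exists_chi (Q ^ 5) hu h1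
    have hUu : ∀ m ∈ U, m < u := fun m hmU => hU ▸ lt_of_mem_chi hX2 hmU
    refine ⟨U, hU, ?_⟩
    rw [hU, wins_iff hN0 hNQ (fun m hmU => by have := hUu m hmU; omega) C hl hlen,
      sat_iff hN0 (fun m hmU => by have := hUu m hmU; omega)] at h2
    exact h2
  · rintro ⟨U, hU, hS⟩
    have hUu : ∀ m ∈ U, m < u := fun m hmU => hU ▸ lt_of_mem_chi hX2 hmU
    refine ⟨?_, ?_⟩
    · rw [hU]
      exact chi_land _ fun m hmU => by have := hUu m hmU; omega
    · rw [hU, wins_iff hN0 hNQ (fun m hmU => by have := hUu m hmU; omega) C hl hlen,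
        sat_iff hN0 (fun m hmU => by have := hUu m hmU; omega)]
      exact hS

end Pool.Agent.Run7.h955.OV
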